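import Pool.Agent.Y198.MC.Stm
import Pool.Agent.Y166.GM.FinalB

/-! Varieties whose generic points have the same field are birational. -/

set_option autoImplicit false
set_option linter.unusedSectionVars false
set_option linter.deprecated false

namespace Pool.Agent.Y166.MC

open MvPolynomial
open Pool.Agent.Y166.GM (PP Rep coneIdeal mem_of_closed zero_iff rep_rep exists_rep exists_homog
  isOpen_basic IsMorphism aeval_aeval eval_aeval aeval_smul_homog eval_smul_homog
  mem_coneIdeal_homog)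
open Pool.Agent.Y198.MC (BirOver StmBir)

section
variable {k : Type} [Field k]

theorem exists_denomF {W ρ ι : Type} [Finite ι] [Field W] [Algebra k W] (xs : ρ → W)
    (w : ι → W) (hw : ∀ i, w i ∈ IntermediateField.adjoin k (Set.range xs)) :
    ∃ (A : ι → MvPolynomial ρ k) (Bd : MvPolynomial ρ k),
      aeval xs Bd ≠ 0 ∧ ∀ i, w i * aeval xs Bd = aeval xs (A i) := by
  classical
  haveI := Fintype.ofFinite ι
  have h1 : ∀ i, ∃ r s : MvPolynomial ρ k, aeval xs s ≠ 0 ∧
      w i * aeval xs s = aeval xs r := by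
    intro i
    obtain ⟨r, s, hrs⟩ := (IntermediateField.mem_adjoin_range_iff k xs (w i)).1 (hw i)
    by_cases hs : aeval xs s = 0
    · refine ⟨0, 1, ?_, ?_⟩
      · rw [map_one]
        exact one_ne_zero
      · rw [hrs, hs, div_zero, zero_mul, map_zero]
    · exact ⟨r, s, hs, by rw [hrs, div_mul_cancel₀ _ hs]⟩
  choose r s hs hrs using h1
  refine ⟨fun i => r i * ∏ j ∈ Finset.univ.erase i, s j, ∏ j, s j, ?_, ?_⟩
  · rw [map_prod, Finset.prod_ne_zero_iff]
    exact fun i _ => hs i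
  · intro i
    rw [← Finset.mul_prod_erase Finset.univ s (Finset.mem_univ i), map_mul, map_mul, ← mul_assoc,
      hrs]

/-- The rational map given by an inclusion of fields. -/
theorem half {ρ ρ' W : Type} [Finite ρ] [Field W] [Algebra k W]
    {Y : Set (PP k ρ)} {Y' : Set (PP k ρ')} (hYc : IsClosed Y)
    {i₀ : ρ} {y : ρ → W} {i₀' : ρ'} {y' : ρ' → W} (hi : y i₀ ≠ 0) (hi' : y' i₀' ≠ 0)
    (hy : ∀ (l : ℕ) (Q : MvPolynomial ρ k), Q.IsHomogeneous l → (aeval y Q = 0 ↔ Q ∈ coneIdeal Y))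
    (hy' : ∀ (l : ℕ) (Q : MvPolynomial ρ' k), Q.IsHomogeneous l →
      (aeval y' Q = 0 ↔ Q ∈ coneIdeal Y'))
    (hmem : ∀ i, y i / y i₀ ∈ IntermediateField.adjoin k (Set.range fun j => y' j / y' i₀')) :
    ∃ (D : ℕ) (A : ρ → MvPolynomial ρ' k), (∀ i, (A i).IsHomogeneous D) ∧
      (∃ c : W, c ≠ 0 ∧ ∀ i, aeval y' (A i) = c * y i) ∧
      ∀ z ∈ Y', ∀ v, Rep z v → eval v (A i₀) ≠ 0 → ∃ w ∈ Y, Rep w (fun i => eval v (A i)) := by
  classical
  haveI := Fintype.ofFinite ρ
  obtain ⟨A, Bd, hBd, hA⟩ := exists_denomF (fun j => y' j / y' i₀') (fun i => y i / y i₀) hmem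
  set D : ℕ := Finset.univ.sup fun i => (A i).totalDegree with hD
  have hAD : ∀ i, (A i).totalDegree ≤ D := fun i =>
    Finset.le_sup (f := fun i => (A i).totalDegree) (Finset.mem_univ i)
  choose Ah hAh hAhe using fun i => exists_homog (A i) (hAD i) i₀' id
  have hval : ∀ i, aeval y' (Ah i) =
      (y' i₀' ^ D * aeval (fun j => y' j / y' i₀') Bd / y i₀) * y i := by
    intro i
    have h1 := hAhe i W y' hi'
    have h2 : aeval (fun j => y' (id j) / y' i₀') (A i) = y i / y i₀ *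
      aeval (fun j => y' j / y' i₀') Bd := (hA i).symm
    rw [h1, h2]
    field_simp
  have hc : y' i₀' ^ D * aeval (fun j => y' j / y' i₀') Bd / y i₀ ≠ 0 :=
    div_ne_zero (mul_ne_zero (pow_ne_zero _ hi') hBd) hi
  refine ⟨D, Ah, hAh, ⟨_, hc, hval⟩, ?_⟩
  intro z hz v hv hne
  obtain ⟨w, hw⟩ := exists_rep (k := k) (v := fun i => eval v (Ah i)) (by
    intro h
    exact hne (congrFun h i₀))
  refine ⟨w, mem_of_closed hYc hw ?_, hw⟩
  intro l Q hQ hQY
  have h1 : (aeval Ah Q : MvPolynomial ρ' k) ∈ coneIdeal Y' := by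
    rw [← hy' _ _ (hQ.aeval Ah hAh), aeval_aeval]
    have h2 : (fun j => aeval y' (Ah j)) = fun j =>
      (y' i₀' ^ D * aeval (fun j => y' j / y' i₀') Bd / y i₀) * y j := funext hval
    rw [h2, aeval_smul_homog hQ, (hy l Q hQ).2 hQY, mul_zero]
  have h2 := h1 z hz v hv
  rw [eval_aeval] at h2
  exact h2

/-- The composition of the two rational maps at a point. -/
theorem side {ρ ρ' : Type} {Y : Set (PP k ρ)} {Y' : Set (PP k ρ')} {i₀ : ρ} {i₀' : ρ'}
    {D D' m m' : ℕ} {A : ρ → MvPolynomial ρ' k} (hA : ∀ i, (A i).IsHomogeneous D)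
    {B : ρ' → MvPolynomial ρ k} (hB : ∀ i, (B i).IsHomogeneous D')
    {P : MvPolynomial ρ k} (hP : P.IsHomogeneous m) {P' : MvPolynomial ρ' k}
    (hP' : P'.IsHomogeneous m')
    (hBm : ∀ z ∈ Y, ∀ v, Rep z v → eval v (B i₀') ≠ 0 → ∃ w ∈ Y', Rep w (fun i => eval v (B i)))
    (hAB : ∀ z ∈ Y, ∀ v, Rep z v → ∀ a b, v a * eval (fun j => eval v (B j)) (A b) =
      v b * eval (fun j => eval v (B j)) (A a)) :
    ∀ z ∈ Y, ∀ v, Rep z v → eval v (B i₀' * aeval B (A i₀) * P * aeval B P') ≠ 0 →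
      (∃ w ∈ Y', Rep w (fun j => eval v (B j))) ∧
      eval (fun j => eval v (B j)) (A i₀ * aeval A (B i₀') * P' * aeval A P) ≠ 0 ∧
      ∃ μ : k, μ ≠ 0 ∧ (fun i => eval (fun j => eval v (B j)) (A i)) = μ • v := by
  intro z hz v hv hne
  rw [map_mul, map_mul, map_mul, eval_aeval, eval_aeval] at hne
  have h1 : eval v (B i₀') ≠ 0 := left_ne_zero_of_mul (left_ne_zero_of_mul (left_ne_zero_of_mul hne))
  have h2 : eval (fun j => eval v (B j)) (A i₀) ≠ 0 :=
    right_ne_zero_of_mul (left_ne_zero_of_mul (left_ne_zero_of_mul hne))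
  have h3 : eval v P ≠ 0 := right_ne_zero_of_mul (left_ne_zero_of_mul hne)
  have h4 : eval (fun j => eval v (B j)) P' ≠ 0 := right_ne_zero_of_mul hne
  have h5 : v i₀ ≠ 0 := by
    intro h
    apply hv.ne_zero
    funext b
    have h6 := hAB z hz v hv i₀ b
    rw [h, zero_mul] at h6
    rcases mul_eq_zero.1 h6.symm with h7 | h7
    · exact h7
    · exact absurd h7 h2
  have hμ : eval (fun j => eval v (B j)) (A i₀) / v i₀ ≠ 0 := div_ne_zero h2 h5
  have hAv : (fun i => eval (fun j => eval v (B j)) (A i)) =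
      (eval (fun j => eval v (B j)) (A i₀) / v i₀) • v := by
    funext i
    have h6 := hAB z hz v hv i₀ i
    rw [Pi.smul_apply, smul_eq_mul, div_mul_eq_mul_div, eq_div_iff h5, mul_comm, h6, mul_comm]
  refine ⟨hBm z hz v hv h1, ?_, _, hμ, hAv⟩
  rw [map_mul, map_mul, map_mul, eval_aeval, eval_aeval, hAv, eval_smul_homog (hB i₀'),
    eval_smul_homog hP]
  exact mul_ne_zero (mul_ne_zero (mul_ne_zero h2 (mul_ne_zero (pow_ne_zero _ hμ) h1)) h4)
    (mul_ne_zero (pow_ne_zero _ hμ) h3)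

end

theorem stmBir : StmBir := by
  intro k ρ ρ' τ _ _ _ _ _ _ W _ _ Y Y' hYc hYc' f f' m F hF mP P hP hrep m' F' hF' mP' P' hP'
    hrep' i₀ y i₀' y' hi hi' hPy hPy' hy hy' hmem hmem' hFF
  classical
  obtain ⟨D, A, hA, ⟨cA, hcA, hAy⟩, hAm⟩ := half hYc hi hi' hy hy' hmem
  obtain ⟨D', B, hB, ⟨cB, hcB, hBy⟩, hBm⟩ := half hYc' hi' hi hy' hy hmem'
  -- the relations
  have hABv : ∀ b, aeval y (aeval B (A b)) = cB ^ D * (cA * y b) := by
    intro b
    rw [aeval_aeval]
    have h2 : (fun j => aeval y (B j)) = fun j => cB * y' j := funext hBy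
    rw [h2, aeval_smul_homog (hA b), hAy]
  have hBAv : ∀ b, aeval y' (aeval A (B b)) = cA ^ D' * (cB * y' b) := by
    intro b
    rw [aeval_aeval]
    have h2 : (fun j => aeval y' (A j)) = fun j => cA * y j := funext hAy
    rw [h2, aeval_smul_homog (hB b), hBy]
  have hAB : ∀ z ∈ Y, ∀ v, Rep z v → ∀ a b, v a * eval (fun j => eval v (B j)) (A b) =
      v b * eval (fun j => eval v (B j)) (A a) := by
    intro z hz v hv a b
    have h1 : (X a * aeval B (A b) - X b * aeval B (A a) : MvPolynomial ρ k).IsHomogeneous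
        (1 + D' * D) := ((isHomogeneous_X k a).mul ((hA b).aeval B hB)).sub
      ((isHomogeneous_X k b).mul ((hA a).aeval B hB))
    have h2 := (hy _ _ h1).1 (by
      rw [map_sub, map_mul, map_mul, aeval_X, aeval_X, hABv, hABv]
      ring)
    have h3 := h2 z hz v hv
    rw [map_sub, map_mul, map_mul, eval_X, eval_X, eval_aeval, eval_aeval, sub_eq_zero] at h3
    exact h3
  have hBA : ∀ z ∈ Y', ∀ v, Rep z v → ∀ a b, v a * eval (fun j => eval v (A j)) (B b) =
      v b * eval (fun j => eval v (A j)) (B a) := by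
    intro z hz v hv a b
    have h1 : (X a * aeval A (B b) - X b * aeval A (B a) : MvPolynomial ρ' k).IsHomogeneous
        (1 + D * D') := ((isHomogeneous_X k a).mul ((hB b).aeval A hA)).sub
      ((isHomogeneous_X k b).mul ((hB a).aeval A hA))
    have h2 := (hy' _ _ h1).1 (by
      rw [map_sub, map_mul, map_mul, aeval_X, aeval_X, hBAv, hBAv]
      ring)
    have h3 := h2 z hz v hv
    rw [map_sub, map_mul, map_mul, eval_X, eval_X, eval_aeval, eval_aeval, sub_eq_zero] at h3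
    exact h3
  have hFB : ∀ z ∈ Y, ∀ v, Rep z v → ∀ a b, eval v (F a) * eval (fun j => eval v (B j)) (F' b) =
      eval v (F b) * eval (fun j => eval v (B j)) (F' a) := by
    intro z hz v hv a b
    have h1 : (F a * aeval B (F' b) - F b * aeval B (F' a) : MvPolynomial ρ k).IsHomogeneous
        (m + D' * m') := ((hF a).mul ((hF' b).aeval B hB)).sub
      ((hF b).mul ((hF' a).aeval B hB))
    have h5 : ∀ b, aeval y (aeval B (F' b)) = cB ^ m' * aeval y' (F' b) := by
      intro b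
      rw [aeval_aeval]
      have h2 : (fun j => aeval y (B j)) = fun j => cB * y' j := funext hBy
      rw [h2, aeval_smul_homog (hF' b)]
    have h2 := (hy _ _ h1).1 (by
      rw [map_sub, map_mul, map_mul, h5, h5, mul_left_comm, hFF a b]
      ring)
    have h3 := h2 z hz v hv
    rw [map_sub, map_mul, map_mul, eval_aeval, eval_aeval, sub_eq_zero] at h3
    exact h3
  have hFA : ∀ z ∈ Y', ∀ v, Rep z v → ∀ a b, eval v (F' a) * eval (fun j => eval v (A j)) (F b) =
      eval v (F' b) * eval (fun j => eval v (A j)) (F a) := by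
    intro z hz v hv a b
    have h1 : (F' a * aeval A (F b) - F' b * aeval A (F a) : MvPolynomial ρ' k).IsHomogeneous
        (m' + D * m) := ((hF' a).mul ((hF b).aeval A hA)).sub
      ((hF' b).mul ((hF a).aeval A hA))
    have h5 : ∀ b, aeval y' (aeval A (F b)) = cA ^ m * aeval y (F b) := by
      intro b
      rw [aeval_aeval]
      have h2 : (fun j => aeval y' (A j)) = fun j => cA * y j := funext hAy
      rw [h2, aeval_smul_homog (hF b)]
    have h2 := (hy' _ _ h1).1 (by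
      rw [map_sub, map_mul, map_mul, h5, h5]
      have h6 := hFF b a
      calc aeval y' (F' a) * (cA ^ m * aeval y (F b)) - aeval y' (F' b) * (cA ^ m * aeval y (F a))
          = cA ^ m * (aeval y (F b) * aeval y' (F' a) - aeval y (F a) * aeval y' (F' b)) := by ring
        _ = 0 := by rw [h6, sub_self, mul_zero])
    have h3 := h2 z hz v hv
    rw [map_sub, map_mul, map_mul, eval_aeval, eval_aeval, sub_eq_zero] at h3
    exact h3
  have S1 := side (Y' := Y') (i₀ := i₀) hA hB hP hP' hBm hAB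
  have S2 := side (Y' := Y) (i₀ := i₀') hB hA hP' hP hAm hBA
  set G : MvPolynomial ρ k := B i₀' * aeval B (A i₀) * P * aeval B P' with hG
  set G' : MvPolynomial ρ' k := A i₀ * aeval A (B i₀') * P' * aeval A P with hG'
  have hGh : G.IsHomogeneous (D' + D' * D + mP + D' * mP') :=
    (((hB i₀').mul ((hA i₀).aeval B hB)).mul hP).mul (hP'.aeval B hB)
  have hGh' : G'.IsHomogeneous (D + D * D' + mP' + D * mP) :=
    (((hA i₀).mul ((hB i₀').aeval A hA)).mul hP').mul (hP.aeval A hA)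
  -- the maps
  have hPP : Nonempty (PP k ρ) := by
    obtain ⟨p, _⟩ := exists_rep (k := k) (v := fun _ : ρ => (1 : k)) (by
      intro h
      exact one_ne_zero (congrFun h i₀))
    exact ⟨p⟩
  have hPP' : Nonempty (PP k ρ') := by
    obtain ⟨p, _⟩ := exists_rep (k := k) (v := fun _ : ρ' => (1 : k)) (by
      intro h
      exact one_ne_zero (congrFun h i₀'))
    exact ⟨p⟩
  obtain ⟨g, hg⟩ : ∃ g : PP k ρ → PP k ρ',
      ∀ x, (fun i => eval x.rep (B i)) ≠ 0 → Rep (g x) (fun i => eval x.rep (B i)) := by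
    have h1 : ∀ x : PP k ρ, ∃ p : PP k ρ',
        (fun i => eval x.rep (B i)) ≠ 0 → Rep p (fun i => eval x.rep (B i)) := by
      intro x
      by_cases h : (fun i => eval x.rep (B i)) = 0
      · exact ⟨hPP'.some, fun h' => absurd h h'⟩
      · obtain ⟨p, hp⟩ := exists_rep (k := k) h
        exact ⟨p, fun _ => hp⟩
    exact ⟨fun x => (h1 x).choose, fun x => (h1 x).choose_spec⟩
  obtain ⟨g', hg'⟩ : ∃ g : PP k ρ' → PP k ρ,
      ∀ x, (fun i => eval x.rep (A i)) ≠ 0 → Rep (g x) (fun i => eval x.rep (A i)) := by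
    have h1 : ∀ x : PP k ρ', ∃ p : PP k ρ,
        (fun i => eval x.rep (A i)) ≠ 0 → Rep p (fun i => eval x.rep (A i)) := by
      intro x
      by_cases h : (fun i => eval x.rep (A i)) = 0
      · exact ⟨hPP.some, fun h' => absurd h h'⟩
      · obtain ⟨p, hp⟩ := exists_rep (k := k) h
        exact ⟨p, fun _ => hp⟩
    exact ⟨fun x => (h1 x).choose, fun x => (h1 x).choose_spec⟩
  -- one side
  have T1 : ∀ z ∈ Y, eval z.rep G ≠ 0 → Rep (g z) (fun j => eval z.rep (B j)) ∧ g z ∈ Y' ∧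
      eval (g z).rep G' ≠ 0 ∧ g' (g z) = z := by
    intro z hz hne
    obtain ⟨⟨w, hw, hwr⟩, h2, μ, hμ, h3⟩ := S1 z hz z.rep (rep_rep z) hne
    have h4 : Rep (g z) (fun j => eval z.rep (B j)) := hg z hwr.ne_zero
    have h5 : g z = w := h4.eq hwr
    have h6 : eval (g z).rep G' ≠ 0 := fun h => h2 ((zero_iff h4 hGh').2 h)
    refine ⟨h4, by rw [h5]; exact hw, h6, ?_⟩
    have h7 : (fun i => eval (g z).rep (A i)) ≠ 0 := by
      intro h
      have h8 : eval (g z).rep (A i₀) = 0 := congrFun h i₀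
      apply h6
      rw [hG', map_mul, map_mul, map_mul, h8, zero_mul, zero_mul, zero_mul]
    have h8 := (h4.eval_iff hA).1 (hg' _ h7)
    rw [h3] at h8
    exact h8.eq ((rep_rep z).smul hμ)
  have T2 : ∀ z ∈ Y', eval z.rep G' ≠ 0 → Rep (g' z) (fun j => eval z.rep (A j)) ∧ g' z ∈ Y ∧
      eval (g' z).rep G ≠ 0 ∧ g (g' z) = z := by
    intro z hz hne
    obtain ⟨⟨w, hw, hwr⟩, h2, μ, hμ, h3⟩ := S2 z hz z.rep (rep_rep z) hne
    have h4 : Rep (g' z) (fun j => eval z.rep (A j)) := hg' z hwr.ne_zero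
    have h5 : g' z = w := h4.eq hwr
    have h6 : eval (g' z).rep G ≠ 0 := fun h => h2 ((zero_iff h4 hGh).2 h)
    refine ⟨h4, by rw [h5]; exact hw, h6, ?_⟩
    have h7 : (fun i => eval (g' z).rep (B i)) ≠ 0 := by
      intro h
      have h8 : eval (g' z).rep (B i₀') = 0 := congrFun h i₀'
      apply h6
      rw [hG, map_mul, map_mul, map_mul, h8, zero_mul, zero_mul, zero_mul]
    have h8 := (h4.eval_iff hB).1 (hg _ h7)
    rw [h3] at h8
    exact h8.eq ((rep_rep z).smul hμ)
  refine ⟨{z | eval z.rep G ≠ 0}, {z | eval z.rep G' ≠ 0}, g, g', isOpen_basic hGh,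
    isOpen_basic hGh', ?_, ?_, ?_, ?_, ?_, ?_, ?_, ?_⟩
  · by_contra hcon
    rw [Set.not_nonempty_iff_eq_empty] at hcon
    have h1 : G ∈ coneIdeal Y := by
      rw [mem_coneIdeal_homog hGh]
      intro z hz
      by_contra h
      have : z ∈ {z : PP k ρ | eval z.rep G ≠ 0} ∩ Y := ⟨h, hz⟩
      rw [hcon] at this
      exact this
    have h2 := (hy _ _ hGh).2 h1
    rw [hG, map_mul, map_mul, map_mul, hBy, hABv, aeval_aeval] at h2
    have h3 : (fun j => aeval y (B j)) = fun j => cB * y' j := funext hBy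
    rw [h3, aeval_smul_homog hP'] at h2
    exact mul_ne_zero (mul_ne_zero (mul_ne_zero (mul_ne_zero hcB hi')
      (mul_ne_zero (pow_ne_zero _ hcB) (mul_ne_zero hcA hi))) hPy)
      (mul_ne_zero (pow_ne_zero _ hcB) hPy') h2
  · rintro z ⟨hz, hzY⟩
    obtain ⟨_, h2, h3, _⟩ := T1 z hzY hz
    exact ⟨h3, h2⟩
  · rintro z ⟨hz, hzY⟩
    obtain ⟨_, h2, h3, _⟩ := T2 z hzY hz
    exact ⟨h3, h2⟩
  · rintro z ⟨hz, hzY⟩
    refine ⟨{z | eval z.rep G ≠ 0}, isOpen_basic hGh, hz, D', B, hB, ?_⟩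
    rintro w ⟨hw, ⟨_, hwY⟩⟩
    exact (T1 w hwY hw).1
  · rintro z ⟨hz, hzY⟩
    refine ⟨{z | eval z.rep G' ≠ 0}, isOpen_basic hGh', hz, D, A, hA, ?_⟩
    rintro w ⟨hw, ⟨_, hwY⟩⟩
    exact (T2 w hwY hw).1
  · rintro z ⟨hz, hzY⟩
    exact (T1 z hzY hz).2.2.2
  · rintro z ⟨hz, hzY⟩
    exact (T2 z hzY hz).2.2.2
  · rintro z ⟨hz, hzY⟩
    obtain ⟨h1, h2, h3, _⟩ := T1 z hzY hz
    have h4 : eval z.rep P ≠ 0 := by
      intro h
      apply hz
      show eval z.rep G = 0
      rw [hG, map_mul, map_mul, h, mul_zero, zero_mul]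
    have h5 : eval (g z).rep P' ≠ 0 := by
      intro h
      apply h3
      rw [hG', map_mul, map_mul, h, mul_zero, zero_mul]
    have h6 := hrep z hzY h4
    have h7 := (h1.eval_iff hF').1 (hrep' _ h2 h5)
    -- proportional
    obtain ⟨a, ha⟩ : ∃ a, eval z.rep (F a) ≠ 0 := by
      by_contra hcon
      push Not at hcon
      exact h6.ne_zero (funext hcon)
    have h8 := hFB z hzY z.rep (rep_rep z)
    have h9 : eval (fun j => eval z.rep (B j)) (F' a) ≠ 0 := by
      intro h0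
      apply h7.ne_zero
      funext b
      have h10 := h8 a b
      rw [h0, mul_zero] at h10
      rcases mul_eq_zero.1 h10 with h11 | h11
      · exact absurd h11 ha
      · exact h11
    have h10 : (fun b => eval (fun j => eval z.rep (B j)) (F' b)) =
        (eval (fun j => eval z.rep (B j)) (F' a) / eval z.rep (F a)) •
          fun b => eval z.rep (F b) := by
      funext b
      have h11 := h8 a b
      rw [Pi.smul_apply, smul_eq_mul, div_mul_eq_mul_div, eq_div_iff ha, mul_comm, h11, mul_comm]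
    rw [h10] at h7
    exact h7.eq (h6.smul (div_ne_zero h9 ha))

end Pool.Agent.Y166.MC
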