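import Pool.Agent.Y198.MC.Stm
import Pool.Agent.Y166.GM.Core2
import Pool.Agent.Y166.GM.Lift

/-! The field theoretic core for affine spaces. -/

set_option autoImplicit false
set_option linter.unusedSectionVars false
set_option linter.deprecated false

namespace Pool.Agent.Y166.MC

open Polynomial
open Pool.Agent.Y198.MC (Ix yv yP StmCore)

section
variable {M : Type} {num : M → ℕ}

/-- The deformation of the parameters which keeps the point at `u`. -/
def pertM {A : Type} [CommRing A] (u : A) (b : M → A) : Ix num → A :=
  fun i => if (i.2 : ℕ) = 0 then -(u * b i.1) else if (i.2 : ℕ) = 1 then b i.1 else 0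

theorem pertM_map {A B : Type} [CommRing A] [CommRing B] (f : A →+* B) (u : A) (b : M → A)
    (i : Ix num) : f (pertM u b i) = pertM (f u) (fun j => f (b j)) i := by
  unfold pertM
  split_ifs <;> simp

theorem yv_add {A : Type} [CommRing A] (c c' : Ix num → A) (t : A) (j : M) :
    yv (fun i => c i + c' i) t j = yv c t j + yv c' t j := by
  unfold yv
  rw [← Finset.sum_add_distrib]
  exact Finset.sum_congr rfl fun p _ => by ring

theorem yv_pert {A : Type} [CommRing A] (hnum : ∀ j, 2 ≤ num j) (u : A) (b : M → A) (t : A)
    (j : M) : yv (pertM (num := num) u b) t j = (t - u) * b j := by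
  unfold yv pertM
  have h := hnum j
  obtain ⟨m, hm⟩ := Nat.exists_eq_add_of_le' h
  rw [Fin.sum_univ_eq_sum_range (fun p => (if p = 0 then -(u * b j) else if p = 1 then b j else 0) *
    t ^ p) (num j), hm, Finset.sum_range_succ', Finset.sum_range_succ', Finset.sum_eq_zero]
  · simp
    ring
  · intro p _
    simp

theorem yv_map {A B : Type} [CommRing A] [CommRing B] (f : A →+* B) (c : Ix num → A) (t : A)
    (j : M) : f (yv c t j) = yv (fun i => f (c i)) (f t) j := by
  unfold yv
  rw [map_sum]
  exact Finset.sum_congr rfl fun p _ => by rw [map_mul, map_pow]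

end

section
variable {k E W M : Type} [Field k] [Field E] [Field W] [Algebra k E] [Algebra E W] [Algebra k W]
  [IsScalarTower k E W] {num : M → ℕ}

/-- The generic parameters, deformed with fixed value at `u`. -/
def ccM (c0 : Ix num → E) (u : E) (b : M → W) : Ix num → W :=
  fun i => algebraMap E W (c0 i) + pertM (algebraMap E W u) b i

theorem ccM_indep (c0 : Ix num → E) (u v : E)
    (h0 : AlgebraicIndependent k (Sum.elim c0 ![u, v])) (b : M → W)
    (hb : AlgebraicIndependent E b) :
    AlgebraicIndependent k
      (Sum.elim (ccM c0 u b) ![algebraMap E W u, algebraMap E W v]) := by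
  rw [algebraicIndependent_iff]
  intro D hD
  let chat : Ix num ⊕ Fin 2 → MvPolynomial M E :=
    Sum.elim (fun i => MvPolynomial.C (c0 i) + pertM (MvPolynomial.C u) MvPolynomial.X i)
      ![MvPolynomial.C u, MvPolynomial.C v]
  have h1 : ∀ x, MvPolynomial.aeval b (chat x) =
      Sum.elim (ccM c0 u b) ![algebraMap E W u, algebraMap E W v] x := by
    rintro (i | j)
    · simp only [chat, Sum.elim_inl, map_add, MvPolynomial.algHom_C, ccM]
      congr 1
      have := pertM_map (num := num)
        (MvPolynomial.aeval b : MvPolynomial M E →ₐ[E] W).toRingHom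
        (MvPolynomial.C u) MvPolynomial.X i
      refine Eq.trans this ?_
      congr 1
      · exact MvPolynomial.algHom_C _ _
      · funext j
        exact MvPolynomial.aeval_X _ _
    · fin_cases j
      · exact MvPolynomial.algHom_C _ _
      · exact MvPolynomial.algHom_C _ _
  have h2 : ∀ x, MvPolynomial.aeval (fun _ : M => (0 : E)) (chat x) =
      Sum.elim c0 ![u, v] x := by
    rintro (i | j)
    · simp only [chat, Sum.elim_inl, map_add, MvPolynomial.algHom_C]
      have := pertM_map (num := num) (MvPolynomial.aeval (fun _ : M => (0 : E)) :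
        MvPolynomial M E →ₐ[E] E).toRingHom (MvPolynomial.C u) MvPolynomial.X i
      have e1 : (MvPolynomial.aeval (fun _ : M => (0 : E)))
          (pertM (MvPolynomial.C u) MvPolynomial.X i) = 0 := by
        refine Eq.trans this ?_
        have e2 : (fun j : M => (MvPolynomial.aeval (fun _ : M => (0 : E)) :
          MvPolynomial M E →ₐ[E] E).toRingHom (MvPolynomial.X j)) = fun _ => 0 := by
          funext j
          exact MvPolynomial.aeval_X _ _
        rw [e2]
        unfold pertM
        split_ifs <;> simp
      rw [e1, add_zero]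
      rfl
    · fin_cases j
      · exact MvPolynomial.algHom_C _ _
      · exact MvPolynomial.algHom_C _ _
  have h3 : MvPolynomial.aeval b (MvPolynomial.aeval chat D) = 0 := by
    have e1 : ((MvPolynomial.aeval b : MvPolynomial M E →ₐ[E] W).restrictScalars k).comp
        (MvPolynomial.aeval chat : MvPolynomial (Ix num ⊕ Fin 2) k →ₐ[k] _) =
        MvPolynomial.aeval (Sum.elim (ccM c0 u b) ![algebraMap E W u, algebraMap E W v]) := by
      apply MvPolynomial.algHom_ext
      intro x
      rw [AlgHom.comp_apply, MvPolynomial.aeval_X, MvPolynomial.aeval_X]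
      exact h1 x
    rw [← hD, ← e1]
    rfl
  have h4 : MvPolynomial.aeval chat D = 0 := by
    apply algebraicIndependent_iff_injective_aeval.1 hb
    rw [h3, map_zero]
  have h5 : MvPolynomial.aeval (Sum.elim c0 ![u, v]) D = 0 := by
    have e1 : ((MvPolynomial.aeval (fun _ : M => (0 : E)) :
        MvPolynomial M E →ₐ[E] E).restrictScalars k).comp
        (MvPolynomial.aeval chat : MvPolynomial (Ix num ⊕ Fin 2) k →ₐ[k] _) =
        MvPolynomial.aeval (Sum.elim c0 ![u, v]) := by
      apply MvPolynomial.algHom_ext
      intro x
      rw [AlgHom.comp_apply, MvPolynomial.aeval_X, MvPolynomial.aeval_X]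
      exact h2 x
    rw [← e1, AlgHom.comp_apply, h4, map_zero]
  exact (algebraicIndependent_iff.1 h0) D h5

theorem coreM [IsAlgClosed k] [CharZero k] [IsAlgClosed E] [IsAlgClosed W]
    (hnum : ∀ j, 2 ≤ num j) (c0 : Ix num → E) (u v : E)
    (h0 : AlgebraicIndependent k (Sum.elim c0 ![u, v])) (b : M → W)
    (hb : AlgebraicIndependent E b) (p q : W[X])
    (hp : ∀ i, IsAlgebraic (IntermediateField.adjoin k (Set.range (ccM c0 u b))) (p.coeff i))
    (hq : ∀ i, IsAlgebraic (IntermediateField.adjoin k (Set.range (ccM c0 u b))) (q.coeff i))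
    (hq0 : q ≠ 0)
    (hu : IsAlgebraic (IntermediateField.adjoin k
      (Set.range (yv (ccM c0 u b) (algebraMap E W u))))
      (p.eval (algebraMap E W u) / q.eval (algebraMap E W u)))
    (hv : IsAlgebraic (IntermediateField.adjoin k
      (Set.range (yv (ccM c0 u b) (algebraMap E W v))))
      (p.eval (algebraMap E W v) / q.eval (algebraMap E W v))) :
    p.eval (algebraMap E W v) / q.eval (algebraMap E W v) ∈
      IntermediateField.adjoin k (Set.range (yv (ccM c0 u b) (algebraMap E W v))) := by
  set c := ccM c0 u b with hc
  have hind := ccM_indep (W := W) c0 u v h0 b hb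
  have hut : Transcendental (IntermediateField.adjoin k (Set.range c)) (algebraMap E W u) :=
    Pool.Agent.Y166.GM.transc_of_indep _ _ hind 0
  have hvt : Transcendental (IntermediateField.adjoin k (Set.range c)) (algebraMap E W v) :=
    Pool.Agent.Y166.GM.transc_of_indep _ _ hind 1
  have hqu := Pool.Agent.Y166.GM.eval_ne_zero_of_trans _ hut q hq hq0
  have hqv := Pool.Agent.Y166.GM.eval_ne_zero_of_trans _ hvt q hq hq0
  have hstep := Pool.Agent.Y166.GM.stepGal c (algebraMap E W u) (algebraMap E W v) hut p q hp hq
    hqu hqv
  have hy : ∀ (t : E) (j : M), yv c (algebraMap E W t) j =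
      algebraMap E W (yv c0 t j) + algebraMap E W (t - u) * b j := by
    intro t j
    have h1 : c = fun i => (fun i => algebraMap E W (c0 i)) i +
        pertM (num := num) (algebraMap E W u) b i := rfl
    rw [h1, yv_add, yv_pert hnum, ← yv_map, map_sub]
  -- the coordinates at `u` lie in `E`
  have hxu : ∀ i, yv c (algebraMap E W u) i = algebraMap E W (yv c0 u i) := by
    intro i
    rw [hy, sub_self, map_zero, zero_mul, add_zero]
  have hθu : p.eval (algebraMap E W u) / q.eval (algebraMap E W u) ∈ Set.range (algebraMap E W) := by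
    have h1 : IsAlgebraic E (p.eval (algebraMap E W u) / q.eval (algebraMap E W u)) := by
      have hle : IntermediateField.adjoin k (Set.range (yv c (algebraMap E W u))) ≤
          (IsScalarTower.toAlgHom k E W).fieldRange := by
        rw [IntermediateField.adjoin_le_iff]
        rintro _ ⟨i, rfl⟩
        exact ⟨yv c0 u i, (hxu i).symm⟩
      obtain ⟨P, hP, hP0⟩ := hu
      have hlift : P.map (algebraMap _ W) ∈ Polynomial.lifts (algebraMap E W) := by
        rw [Polynomial.lifts_iff_coeff_lifts]
        intro i
        rw [Polynomial.coeff_map]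
        exact hle (P.coeff i).2
      obtain ⟨Q, hQ⟩ := (Polynomial.mem_lifts _).1 hlift
      refine ⟨Q, ?_, ?_⟩
      · intro h
        rw [h, Polynomial.map_zero] at hQ
        exact hP ((Polynomial.map_eq_zero_iff (FaithfulSMul.algebraMap_injective _ W)).1 hQ.symm)
      · rw [Polynomial.aeval_def, ← Polynomial.eval_map, hQ, Polynomial.eval_map]
        exact hP0
    haveI := IntermediateField.isAlgebraic_adjoin_simple h1.isIntegral
    haveI : Algebra.IsIntegral E (IntermediateField.adjoin E
        {p.eval (algebraMap E W u) / q.eval (algebraMap E W u)}) :=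
      Algebra.IsAlgebraic.isIntegral
    obtain ⟨z, hz⟩ := (IsAlgClosed.algebraMap_bijective_of_isIntegral (k := E)
      (K := IntermediateField.adjoin E
        {p.eval (algebraMap E W u) / q.eval (algebraMap E W u)})).2
      ⟨_, IntermediateField.mem_adjoin_simple_self E _⟩
    exact ⟨z, congrArg Subtype.val hz⟩
  -- independence of the coordinates at `v`
  have huv : v - u ≠ 0 := by
    intro h
    have h1 := h0.injective
    have : (Sum.inr 0 : Ix num ⊕ Fin 2) = Sum.inr 1 := h1 (by
      show u = v
      exact (sub_eq_zero.1 h).symm)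
    simp at this
  have hxv : yv c (algebraMap E W v) = fun i =>
      algebraMap E W (yv c0 v i) + algebraMap E W (v - u) * b i := by
    funext i
    exact hy v i
  have hindv : AlgebraicIndependent E (yv c (algebraMap E W v)) := by
    rw [hxv]
    exact Pool.Agent.Y166.GM.indep_affine b hb _ (fun _ => v - u) fun _ => huv
  -- `θ(v)` lies in `E(yv v)`
  have hmem : p.eval (algebraMap E W v) / q.eval (algebraMap E W v) ∈
      IntermediateField.adjoin E (Set.range (yv c (algebraMap E W v))) := by
    set L := IntermediateField.adjoin E (Set.range (yv c (algebraMap E W v))) with hL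
    have hE : ∀ x : E, algebraMap E W x ∈ L := fun x => L.algebraMap_mem x
    have hbL : ∀ i, b i ∈ L := by
      intro i
      have h1 : yv c (algebraMap E W v) i ∈ L :=
        IntermediateField.subset_adjoin _ _ ⟨i, rfl⟩
      have h2 : yv c (algebraMap E W v) i = algebraMap E W (yv c0 v i) +
          algebraMap E W (v - u) * b i := congrFun hxv i
      have h3 : b i = (yv c (algebraMap E W v) i - algebraMap E W (yv c0 v i)) *
          (algebraMap E W (v - u))⁻¹ := by
        rw [h2, add_sub_cancel_left, mul_comm, ← mul_assoc, inv_mul_cancel₀, one_mul]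
        intro h
        exact huv ((map_eq_zero _).1 h)
      rw [h3]
      exact L.mul_mem (L.sub_mem h1 (hE _)) (L.inv_mem (hE _))
    have hcL : ∀ i, c i ∈ L := by
      intro i
      rw [hc]
      refine L.add_mem (hE _) ?_
      unfold pertM
      split_ifs
      · exact L.neg_mem (L.mul_mem (hE u) (hbL _))
      · exact hbL _
      · exact L.zero_mem
    have hle : IntermediateField.adjoin k (Set.range c ∪ {algebraMap E W u, algebraMap E W v,
        p.eval (algebraMap E W u) / q.eval (algebraMap E W u)}) ≤ L.restrictScalars k := by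
      rw [IntermediateField.adjoin_le_iff]
      rintro x (⟨i, rfl⟩ | hx)
      · exact hcL i
      · rcases hx with rfl | rfl | rfl
        · exact hE u
        · exact hE v
        · obtain ⟨z, hz⟩ := hθu
          show _ ∈ L
          rw [← hz]
          exact hE z
    exact hle hstep
  exact Pool.Agent.Y166.GM.lemC _ hindv _ hmem hv

end

theorem stmCore : StmCore := by
  intro k _ _ _ M _ num hnum
  obtain ⟨E, _, _, _, x, hx⟩ := Pool.Agent.Y166.GM.exists_closure k (Ix num ⊕ Fin 2)
  obtain ⟨W, _, _, _, b, hb⟩ := Pool.Agent.Y166.GM.exists_closure E M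
  letI : Algebra k W := ((algebraMap E W).comp (algebraMap k E)).toAlgebra
  haveI : IsScalarTower k E W := IsScalarTower.of_algebraMap_eq fun _ => rfl
  have h1 : Sum.elim (fun i => x (.inl i)) ![x (.inr 0), x (.inr 1)] = x := by
    funext j
    rcases j with i | j
    · rfl
    · fin_cases j <;> rfl
  have h0 : AlgebraicIndependent k (Sum.elim (fun i => x (.inl i)) ![x (.inr 0), x (.inr 1)]) := by
    rw [h1]
    exact hx
  refine ⟨W, inferInstance, inferInstance, inferInstance,
    ccM (fun i => x (.inl i)) (x (.inr 0)) b,
    ![algebraMap E W (x (.inr 0)), algebraMap E W (x (.inr 1))], ccM_indep _ _ _ h0 b hb, ?_⟩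
  intro p q hp hq hq0 hs
  exact coreM hnum _ (x (.inr 0)) (x (.inr 1)) h0 b hb p q hp hq hq0 (hs 0) (hs 1)

end Pool.Agent.Y166.MC
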