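import Pool.Agent.Y166.MC.GenA

/-! Families of curves on the bundle: the generic point. -/

set_option autoImplicit false
set_option linter.unusedSectionVars false
set_option linter.deprecated false
set_option linter.style.haveILetI false

namespace Pool.Agent.Y166.MC

open MvPolynomial
open Pool.Agent.Y198.MC (Sg Ta Co wdg cub ptX XX IsCompBi Ix yP yv cv cvF j0 rrX vvX StmCore
  StmChart)
open Pool.Agent.Y166.GM (PP Rep pol forms coneIdeal Mor IsProjVar IsMorphism GenFinite zero_iff
  rep_rep exists_rep alongL alongL_eval exists_lift exists_homog mem_closure_iff')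
open Pool.Agent.Y166.SM (biforms MorBi exists_eval_ne zero_of_dense)

theorem stmGenR (hcore : StmCore) (hchart : StmChart) : StmGenR := by
  intro k _ _ _ r e d M _ num hr hnum U V Cc T hdw hdc hTM hTcl hP₀ hj0 hind n Y hY f hf hfX
    hfin e₁ Ns hNs hdense
  classical
  haveI : Infinite k := IsAlgClosed.instInfinite
  obtain ⟨P₀, hP₀, hP₀'⟩ := hP₀
  obtain ⟨cs, hcs⟩ := exists_eval_ne hP₀
  obtain ⟨γs, _, hγs⟩ := hP₀' cs hcs
  obtain ⟨x0, hx0⟩ : ∃ x0, cvF e d U V Cc cs x0 ≠ 0 := Function.ne_iff.1 hγs.ne_zero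
  -- degrees
  have hdw' : ∀ s, ∀ c : Ix num → k, (aeval (yP c) (wdg U V s) : Polynomial k).natDegree ≤ e := by
    intro s c
    have h1 := wdg_hom (aeval (yP c) : MvPolynomial M k →ₐ[k] Polynomial k).toRingHom U V s
    have h1' : aeval (yP c) (wdg U V s) =
      wdg (fun i => aeval (yP c) (U i)) (fun i => aeval (yP c) (V i)) s := h1
    rw [h1']
    exact hdw c s
  have hdc' : ∀ s, ∀ c : Ix num → k,
      (aeval (yP c) (cub U V Cc s) : Polynomial k).natDegree ≤ d := by
    intro s c
    have h1 := cub_hom (aeval (yP c) : MvPolynomial M k →ₐ[k] Polynomial k).toRingHom U V Cc s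
    have h1' : aeval (yP c) (cub U V Cc s) =
      cub (fun i => aeval (yP c) (U i)) (fun i => aeval (yP c) (V i))
        (fun i => aeval (yP c) (Cc i)) s := h1
    rw [h1']
    exact hdc c s
  -- the generic curve
  obtain ⟨W, _, _, _, cW, t, hct, hcoreW⟩ := hcore k M num hnum
  have hcind : AlgebraicIndependent k cW := by
    have := hct.comp Sum.inl Sum.inl_injective
    exact this
  have hpull0 : ∀ Q, aeval (cvF e d U V Cc cW) Q = 0 ↔
      (pullF e d num U V Cc Q : MvPolynomial (Ix num) k) = 0 := by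
    intro Q
    rw [← aeval_pullF]
    constructor
    · exact fun h => (algebraicIndependent_iff.1 hcind) _ h
    · intro h
      rw [h, map_zero]
  have hw0 : cvF e d U V Cc cW x0 ≠ 0 := by
    intro h
    have h1 : aeval (cvF e d U V Cc cW) (X x0 : MvPolynomial _ k) = 0 := by rw [aeval_X, h]
    rw [hpull0] at h1
    apply hx0
    have h2 := eval_pullF (e := e) (d := d) U V Cc cs (X x0)
    rw [h1, map_zero, eval_X] at h2
    exact h2.symm
  set w0 : W := cvF e d U V Cc cW x0 with hw0def
  let φ : MvPolynomial ((Sg (r + 2) × Fin (e + 1)) × (Ta (r + 2) × Fin (d + 1))) k →ₐ[k] W :=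
    aeval (fun x => cvF e d U V Cc cW x / w0)
  let Γ : Set ((Fin (n + 1) × Fin (e₁ + 1) → k) ×
      ((Sg (r + 2) × Fin (e + 1)) × (Ta (r + 2) × Fin (d + 1)) → k)) :=
    {p | ∃ γ ∈ Ns, Rep γ p.1 ∧ ∃ η ∈ T, Rep η p.2 ∧ IsCompBi f γ η ∧ p.2 x0 = 1}
  -- homogenisation
  have hhom : ∀ Q : MvPolynomial ((Sg (r + 2) × Fin (e + 1)) × (Ta (r + 2) × Fin (d + 1))) k,
      ∃ (D : ℕ) (Qh : MvPolynomial ((Sg (r + 2) × Fin (e + 1)) × (Ta (r + 2) × Fin (d + 1))) k),
        Qh.IsHomogeneous D ∧ (φ Q = 0 ↔ (pullF e d num U V Cc Qh : MvPolynomial (Ix num) k) = 0) ∧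
        (∀ v : (Sg (r + 2) × Fin (e + 1)) × (Ta (r + 2) × Fin (d + 1)) → k, v x0 ≠ 0 →
          (eval v Qh = 0 ↔ eval (fun x => v x / v x0) Q = 0)) := by
    intro Q
    obtain ⟨Qh, hQh, hQhe⟩ := exists_homog Q le_rfl x0 id
    refine ⟨Q.totalDegree, Qh, hQh, ?_, ?_⟩
    · have h1 := hQhe W (cvF e d U V Cc cW) hw0
      have h2 : aeval (fun i => cvF e d U V Cc cW (id i) / cvF e d U V Cc cW x0) Q = φ Q := rfl
      rw [h2] at h1
      rw [← hpull0, h1]
      constructor
      · intro h
        rw [h, mul_zero]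
      · intro h
        rcases mul_eq_zero.1 h with h3 | h3
        · exact absurd (eq_zero_of_pow_eq_zero h3) hw0
        · exact h3
    · intro v hv
      have h1 := hQhe k v hv
      rw [aeval_eq_eval, aeval_eq_eval] at h1
      rw [h1]
      constructor
      · intro h
        rcases mul_eq_zero.1 h with h3 | h3
        · exact absurd (eq_zero_of_pow_eq_zero h3) hv
        · exact h3
      · intro h
        have h2 : eval (fun i => v (id i) / v x0) Q = 0 := h
        rw [h2, mul_zero]
  -- density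
  have dens0 : ∀ Q : MvPolynomial ((Sg (r + 2) × Fin (e + 1)) × (Ta (r + 2) × Fin (d + 1))) k,
      (∀ p ∈ Γ, eval p.2 Q = 0) → φ Q = 0 := by
    intro Q hQ
    obtain ⟨D, Qh, hQh, hφQ, hQv⟩ := hhom Q
    rw [hφQ]
    have h1 : ∀ γ ∈ T, eval γ.rep (Qh * X x0) = 0 := by
      refine hdense _ _ (hQh.mul (isHomogeneous_X k x0)) ?_
      rintro γ hγ ⟨g, hg, hgγ⟩
      rw [map_mul, eval_X]
      by_cases h0 : γ.rep x0 = 0
      · rw [h0, mul_zero]
      · have h2 : eval (fun x => γ.rep x / γ.rep x0) Q = 0 := by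
          have h3 : (fun x => γ.rep x / γ.rep x0) = (γ.rep x0)⁻¹ • γ.rep := by
            funext x
            rw [Pi.smul_apply, smul_eq_mul, div_eq_inv_mul]
          refine hQ (g.rep, fun x => γ.rep x / γ.rep x0) ⟨g, hg, rep_rep g, γ, hγ, ?_, hgγ, ?_⟩
          · show Rep γ (fun x => γ.rep x / γ.rep x0)
            rw [h3]
            exact (rep_rep γ).smul (inv_ne_zero h0)
          · exact div_self h0
        rw [(hQv _ h0).2 h2, zero_mul]
    have h2 : (pullF e d num U V Cc Qh * pullF e d num U V Cc (X x0) : MvPolynomial (Ix num) k)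
        = 0 := by
      apply zero_of_dense hP₀
      intro c hc
      obtain ⟨γ, hγ, hγc⟩ := hP₀' c hc
      have h3 := h1 γ hγ
      rw [← zero_iff hγc (hQh.mul (isHomogeneous_X k x0))] at h3
      rw [map_mul, eval_pullF, eval_pullF, ← map_mul]
      exact h3
    rcases mul_eq_zero.1 h2 with h3 | h3
    · exact h3
    · exfalso
      apply hw0
      have h4 := (hpull0 (X x0)).2 h3
      rw [aeval_X] at h4
      exact h4
  have dens1 : ∀ Q : MvPolynomial ((Sg (r + 2) × Fin (e + 1)) × (Ta (r + 2) × Fin (d + 1))) k,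
      φ Q = 0 → ∀ p ∈ Γ, eval p.2 Q = 0 := by
    rintro Q hQ p ⟨γ, _, _, η, hη, hηp, _, hp0⟩
    obtain ⟨D, Qh, hQh, hφQ, hQv⟩ := hhom Q
    have h1 := hφQ.1 hQ
    have h2 : eval η.rep Qh = 0 := by
      refine (mem_closure_iff' _ _).1 (hTcl hη) D Qh hQh ?_
      rintro q ⟨_, c, hc⟩
      rw [← zero_iff hc hQh, ← eval_pullF, h1, map_zero]
    rw [← zero_iff hηp hQh] at h2
    have h3 := (hQv p.2 (by rw [hp0]; exact one_ne_zero)).1 h2
    have h4 : (fun x => p.2 x / p.2 x0) = p.2 := by
      funext x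
      rw [hp0, div_one]
    rw [h4] at h3
    exact h3
  -- points of the family
  have hΓpt : ∀ p ∈ Γ, ∀ t : k, ∃ z ∈ Y, Rep z (fun i => (pol fun l => p.1 (i, l)).eval t) ∧
      Rep (f z) (fun j => (bl p.2 j).eval t) := by
    rintro p ⟨γ, hγN, hγ, η, _, hη, hcomp, _⟩ t
    have hs : (![t, 1] : Fin 2 → k) ≠ 0 := by
      intro h
      have := congrFun h 1
      simp at this
    obtain ⟨z, hz, hz'⟩ := (Pool.Agent.Y166.GM.mem_Mor_iff hγ).1 (hNs hγN) _ hs
    refine ⟨z, hz, ?_, ?_⟩
    · rw [← Pool.Agent.Y166.GM.forms_pt]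
      exact hz'
    · have h1 : (fun j => (bl p.2 j).eval t) = biforms p.2 ![t, 1] := by
        funext j
        exact bl_eval p.2 t j
      rw [h1]
      exact (Pool.Agent.Y166.SM.rep_biforms hη _ _).1
        (hcomp _ hs z ((Pool.Agent.Y166.GM.rep_forms hγ _ _).2 hz'))
  -- the choice of the chart
  let HH : Set (MvPolynomial (Fin (n + 1) × Fin (e₁ + 1)) k) :=
    {H | ∃ (c : ChF Y f) (l : ℕ), H = (alongL c.G).coeff l}
  have hHH : ∀ p ∈ Γ, ∃ H ∈ HH, eval p.1 H ≠ 0 := by
    intro p hp
    obtain ⟨z, hz, hz1, _⟩ := hΓpt p hp 0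
    obtain ⟨c, hc⟩ := exists_chF hf hz
    have h1 : aeval (fun i => (pol fun l => p.1 (i, l)).eval 0) c.G ≠ 0 := by
      rw [aeval_eq_eval]
      intro h
      exact hc ((zero_iff hz1 c.G_homog).1 h)
    rw [← alongL_eval] at h1
    by_contra hcon
    push Not at hcon
    apply h1
    have h2 : (alongL c.G).map (aeval p.1 : MvPolynomial (Fin (n + 1) × Fin (e₁ + 1)) k →ₐ[k]
        k).toRingHom = 0 := by
      ext l
      rw [Polynomial.coeff_map, Polynomial.coeff_zero]
      have h3 := hcon _ ⟨c, l, rfl⟩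
      rw [← aeval_eq_eval] at h3
      exact h3
    rw [h2, Polynomial.eval_zero]
  obtain ⟨TT, hTH, hTspan⟩ := (Submodule.fg_span_iff_fg_span_finset_subset
    (R := MvPolynomial (Fin (n + 1) × Fin (e₁ + 1)) k) HH).1 (IsNoetherian.noetherian _)
  have hT : ∀ p ∈ Γ, ∃ H ∈ TT, eval p.1 H ≠ 0 := by
    intro p hp
    obtain ⟨H, hH, hH0⟩ := hHH p hp
    by_contra hcon
    push Not at hcon
    apply hH0
    have h1 : Submodule.span (MvPolynomial (Fin (n + 1) × Fin (e₁ + 1)) k) HH ≤
        (RingHom.ker (eval p.1) : Ideal (MvPolynomial (Fin (n + 1) × Fin (e₁ + 1)) k)) := by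
      rw [hTspan, Submodule.span_le]
      intro H' hH'
      exact hcon H' hH'
    exact h1 (Submodule.subset_span hH)
  obtain ⟨H, hHT, hHdens⟩ : ∃ H ∈ TT,
      ∀ Q : MvPolynomial ((Sg (r + 2) × Fin (e + 1)) × (Ta (r + 2) × Fin (d + 1))) k,
      (∀ p ∈ Γ, eval p.1 H ≠ 0 → eval p.2 Q = 0) → φ Q = 0 := by
    by_contra hcon
    push Not at hcon
    choose! Q hQ hQ0 using hcon
    have h1 := dens0 (∏ H ∈ TT, Q H) (by
      intro p hp
      obtain ⟨H, hH, hH0⟩ := hT p hp
      rw [map_prod]
      exact Finset.prod_eq_zero hH (hQ H hH p hp hH0))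
    rw [map_prod] at h1
    exact Finset.prod_ne_zero_iff.2 hQ0 h1
  obtain ⟨c, l0, hH⟩ := hTH hHT
  obtain ⟨g, hgH, hgP, hgalg⟩ := exists_lift Γ φ H (fun Q =>
    ⟨fun h p hp _ => dens1 Q h p hp, hHdens Q⟩)
  have hφX : (fun j => φ (X j)) = fun x => w0⁻¹ * cvF e d U V Cc cW x := by
    funext j
    show aeval (fun x => cvF e d U V Cc cW x / w0) (X j) = _
    rw [aeval_X, div_eq_inv_mul]
  rw [hφX] at hgP
  set L := IntermediateField.adjoin k (Set.range cW) with hL
  have hcvL : ∀ x, cvF e d U V Cc cW x ∈ L := by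
    intro x
    have hS : ∀ i, cW i ∈ L := fun i => IntermediateField.subset_adjoin k _ ⟨i, rfl⟩
    have h1 := cvF_map (e := e) (d := d) U V Cc L.val (fun i => (⟨cW i, hS i⟩ : L)) x
    have h2 : (fun i => L.val (⟨cW i, hS i⟩ : L)) = cW := rfl
    rw [h2] at h1
    rw [← h1]
    exact (cvF e d U V Cc (fun i => (⟨cW i, hS i⟩ : L)) x).2
  have hφL : ∀ Q, φ Q ∈ L := by
    intro Q
    induction Q using MvPolynomial.induction_on with
    | C r =>
      have : φ (C r) = algebraMap k W r := φ.commutes r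
      rw [this]
      exact L.algebraMap_mem r
    | add p q hp hq => rw [map_add]; exact add_mem hp hq
    | mul_X p i hp =>
      rw [map_mul]
      refine mul_mem hp ?_
      have : φ (X i) = w0⁻¹ * cvF e d U V Cc cW i := congrFun hφX i
      rw [this]
      exact mul_mem (inv_mem (hcvL _)) (hcvL _)
  have hgL : ∀ i, IsAlgebraic L (g i) := by
    intro i
    obtain ⟨q, hq, hq0⟩ := hgalg i
    let φL : MvPolynomial ((Sg (r + 2) × Fin (e + 1)) × (Ta (r + 2) × Fin (d + 1))) k →+* L :=
      (φ : MvPolynomial ((Sg (r + 2) × Fin (e + 1)) × (Ta (r + 2) × Fin (d + 1))) k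
        →+* W).codRestrict L hφL
    have h1 : (algebraMap L W).comp φL =
      (φ : MvPolynomial ((Sg (r + 2) × Fin (e + 1)) × (Ta (r + 2) × Fin (d + 1))) k →+* W) := rfl
    refine ⟨q.map φL, ?_, ?_⟩
    · intro h
      apply hq
      rw [← h1, ← Polynomial.map_map, h, Polynomial.map_zero]
    · rw [Polynomial.aeval_def, Polynomial.eval₂_map, h1]
      exact hq0
  -- the transfer
  have TL : ∀ Q : MvPolynomial (Fin (n + 1) ⊕ Co (r + 2)) k,
      (∀ z ∈ Y, ∀ v w, Rep z v → Rep (f z) w → eval (Sum.elim v w) Q = 0) → ∀ t : W,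
      aeval (Sum.elim (fun i => (pol fun l => g (i, l)).eval t)
        (fun j => (bl (fun x => w0⁻¹ * cvF e d U V Cc cW x) j).eval t)) Q = 0 := by
    intro Q hQ t
    rw [← alongB_eval]
    have h1 : (alongB Q).map (aeval (Sum.elim g (fun x => w0⁻¹ * cvF e d U V Cc cW x)) :
        MvPolynomial ((Fin (n + 1) × Fin (e₁ + 1)) ⊕
          ((Sg (r + 2) × Fin (e + 1)) × (Ta (r + 2) × Fin (d + 1)))) k →ₐ[k] W).toRingHom
        = 0 := by
      ext l
      rw [Polynomial.coeff_map, Polynomial.coeff_zero]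
      refine hgP _ ?_
      intro p hp _
      have h2 : (alongB Q).map (aeval (Sum.elim p.1 p.2) :
          MvPolynomial ((Fin (n + 1) × Fin (e₁ + 1)) ⊕
            ((Sg (r + 2) × Fin (e + 1)) × (Ta (r + 2) × Fin (d + 1)))) k →ₐ[k] k).toRingHom
          = 0 := by
        apply Polynomial.funext
        intro s
        rw [alongB_eval, Polynomial.eval_zero, aeval_eq_eval]
        obtain ⟨z, hz, hz1, hz2⟩ := hΓpt p hp s
        exact hQ z hz _ _ hz1 hz2
      have h3 := congrArg (fun P => P.coeff l) h2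
      simp only [Polynomial.coeff_map, Polynomial.coeff_zero] at h3
      rw [← aeval_eq_eval]
      exact h3
    rw [h1, Polynomial.eval_zero]
  have hne2 : (alongL c.G).map (aeval g : MvPolynomial (Fin (n + 1) × Fin (e₁ + 1)) k →ₐ[k]
      W).toRingHom ≠ 0 := by
    intro h
    apply hgH
    have h1 := congrArg (fun P => P.coeff l0) h
    simp only [Polynomial.coeff_map, Polynomial.coeff_zero] at h1
    rw [hH]
    exact h1
  have halgL : ∀ Q : MvPolynomial (Fin (n + 1) × Fin (e₁ + 1)) k, IsAlgebraic L (aeval g Q) := by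
    intro Q
    rw [← Subalgebra.mem_algebraicClosure]
    induction Q using MvPolynomial.induction_on with
    | C r =>
      rw [aeval_C, IsScalarTower.algebraMap_apply k L W]
      exact Subalgebra.algebraMap_mem _ _
    | add p q hp hq => rw [map_add]; exact add_mem hp hq
    | mul_X p i hp =>
      rw [map_mul, aeval_X]
      exact mul_mem hp ((Subalgebra.mem_algebraicClosure _ _).2 (hgL i))
  -- the point of the generic curve
  have hxt : ∀ (t : W) (j : Co (r + 2)),
      (bl (fun x => w0⁻¹ * cvF e d U V Cc cW x) j).eval t =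
        w0⁻¹ * aeval (yv cW t) (ptX U V Cc j) := by
    intro t j
    rw [bl_smul, Polynomial.eval_mul, Polynomial.eval_C]
    congr 1
    have h1 : cvF e d U V Cc cW = fun x =>
        (aeval (yP cW) (wdg U V x.1.1) : Polynomial W).coeff x.1.2 *
          (aeval (yP cW) (cub U V Cc x.2.1) : Polynomial W).coeff x.2.2 := by
      funext x
      exact cvF_eq U V Cc cW x
    rw [h1, bl_prod (fun s => (aeval (yP cW) (wdg U V s) : Polynomial W))
      (fun s => (aeval (yP cW) (cub U V Cc s) : Polynomial W)) j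
      (deg_gen _ e (hdw' _) cW) (deg_gen _ d (hdc' _) cW), Polynomial.eval_mul, sub_eval,
      sub_eval, ← map_mul]
    rfl
  -- at the two points
  have hpts : ∀ w : Fin 2,
      (∀ Q ∈ coneIdeal Y, aeval (fun i => (pol fun l => g (i, l)).eval (t w)) Q = 0) ∧
      aeval (fun i => (pol fun l => g (i, l)).eval (t w)) c.P ≠ 0 ∧
      (pol fun l => g (c.i0, l)).eval (t w) ≠ 0 ∧
      aeval (fun i => (pol fun l => g (i, l)).eval (t w)) (c.F (j0 r)) ≠ 0 ∧
      (∀ i, aeval (fun i => (pol fun l => g (i, l)).eval (t w)) (c.F i) /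
        aeval (fun i => (pol fun l => g (i, l)).eval (t w)) (c.F (j0 r)) =
        aeval (yv cW (t w)) (ptX U V Cc i) / aeval (yv cW (t w)) (ptX U V Cc (j0 r))) ∧
      (∀ a b, aeval (fun i => (pol fun l => g (i, l)).eval (t w)) (c.F a) *
          aeval (yv cW (t w)) (ptX U V Cc b) =
        aeval (fun i => (pol fun l => g (i, l)).eval (t w)) (c.F b) *
          aeval (yv cW (t w)) (ptX U V Cc a)) ∧
      AlgebraicIndependent k (yv cW (t w)) := by
    intro w
    have htr : Transcendental L (t w) := Pool.Agent.Y166.GM.transc_of_indep cW _ hct w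
    have hyind : AlgebraicIndependent k (yv cW (t w)) :=
      yv_indep (fun j => le_trans (by norm_num) (hnum j)) cW t hct w
    have hx0' : aeval (yv cW (t w)) (ptX U V Cc (j0 r)) ≠ 0 := by
      intro h
      exact hj0 ((algebraicIndependent_iff.1 hyind) _ h)
    have hxne : (fun j => (bl (fun x => w0⁻¹ * cvF e d U V Cc cW x) j).eval (t w)) (j0 r) ≠ 0 := by
      show (bl (fun x => w0⁻¹ * cvF e d U V Cc cW x) (j0 r)).eval (t w) ≠ 0
      rw [hxt]
      exact mul_ne_zero (inv_ne_zero hw0) hx0'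
    have hG : aeval (fun i => (pol fun l => g (i, l)).eval (t w)) c.G ≠ 0 := by
      rw [← alongL_eval]
      refine Pool.Agent.Y166.GM.eval_ne_zero_of_trans (t w) htr _ ?_ hne2
      intro l
      rw [Polynomial.coeff_map]
      exact halgL _
    have hA : ∀ Q ∈ coneIdeal Y, aeval (fun i => (pol fun l => g (i, l)).eval (t w)) Q = 0 := by
      intro Q hQ
      have h1 := TL (rename Sum.inl Q) (by
        intro z hz v w hv _
        rw [eval_rename, Sum.elim_comp_inl]
        exact hQ z hz v hv) (t w)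
      rw [aeval_rename, Sum.elim_comp_inl] at h1
      exact h1
    have hB : ∀ a b, aeval (fun i => (pol fun l => g (i, l)).eval (t w)) c.P *
        (aeval (fun i => (pol fun l => g (i, l)).eval (t w)) (c.F a) *
          (fun j => (bl (fun x => w0⁻¹ * cvF e d U V Cc cW x) j).eval (t w)) b -
        aeval (fun i => (pol fun l => g (i, l)).eval (t w)) (c.F b) *
          (fun j => (bl (fun x => w0⁻¹ * cvF e d U V Cc cW x) j).eval (t w)) a) = 0 := by
      intro a b
      have h1 := TL (rename Sum.inl c.P * (rename Sum.inl (c.F a) * X (Sum.inr b) -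
        rename Sum.inl (c.F b) * X (Sum.inr a))) (by
        intro z hz v w hv hw
        rw [map_mul, map_sub, map_mul, map_mul, eval_rename, eval_rename, eval_rename,
          Sum.elim_comp_inl, eval_X, eval_X, Sum.elim_inr, Sum.elim_inr]
        by_cases hPv : eval v c.P = 0
        · rw [hPv, zero_mul]
        · have h2 : eval z.rep c.P ≠ 0 := fun h => hPv ((zero_iff hv c.hP).2 h)
          have h3 := (hv.eval_iff c.hF).1 (c.hrep z hz h2)
          obtain ⟨r, _, hr⟩ := h3.exists_smul hw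
          have h4 : ∀ j, w j = r * eval v (c.F j) := fun j => congrFun hr j
          rw [h4 a, h4 b]
          ring) (t w)
      rw [map_mul, map_sub, map_mul, map_mul, aeval_rename, aeval_rename, aeval_rename,
        Sum.elim_comp_inl, aeval_X, aeval_X, Sum.elim_inr, Sum.elim_inr] at h1
      exact h1
    obtain ⟨r1, r2, r3, r4, r5⟩ := at_pointF c _
      (fun j => (bl (fun x => w0⁻¹ * cvF e d U V Cc cW x) j).eval (t w)) hG hB (j0 r) hxne
    refine ⟨hA, r1, r2, r3, fun i => ?_, fun a b => ?_, hyind⟩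
    · rw [r4 i]
      show (bl (fun x => w0⁻¹ * cvF e d U V Cc cW x) i).eval (t w) /
        (bl (fun x => w0⁻¹ * cvF e d U V Cc cW x) (j0 r)).eval (t w) = _
      rw [hxt, hxt, mul_div_mul_left _ _ (inv_ne_zero hw0)]
    · have h1 := r5 a b
      have h2 : aeval (fun i => (pol fun l => g (i, l)).eval (t w)) (c.F a) *
          (w0⁻¹ * aeval (yv cW (t w)) (ptX U V Cc b)) =
          aeval (fun i => (pol fun l => g (i, l)).eval (t w)) (c.F b) *
          (w0⁻¹ * aeval (yv cW (t w)) (ptX U V Cc a)) := by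
        rw [← hxt, ← hxt]
        exact h1
      have h3 := inv_ne_zero hw0
      apply mul_left_cancel₀ h3
      calc _ = aeval (fun i => (pol fun l => g (i, l)).eval (t w)) (c.F a) *
          (w0⁻¹ * aeval (yv cW (t w)) (ptX U V Cc b)) := by ring
        _ = _ := by rw [h2]; ring
  have hchX := (hchart k r hr).1
  have hFLA : ∀ w : Fin 2, (∀ i, IsAlgebraic (IntermediateField.adjoin k
      (Set.range (fun i => aeval (yv cW (t w)) (ptX U V Cc (rrX r i)) /
        aeval (yv cW (t w)) (ptX U V Cc (j0 r)))))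
        ((pol fun l => g (i, l)).eval (t w) / (pol fun l => g (c.i0, l)).eval (t w))) ∧
      ∀ (l : ℕ) (Q : MvPolynomial (Fin (n + 1)) k), Q.IsHomogeneous l →
        aeval (fun i => (pol fun l => g (i, l)).eval (t w)) Q = 0 → Q ∈ coneIdeal Y := by
    intro w
    obtain ⟨uA, uP, ui0, uF0, uxs, _, uind⟩ := hpts w
    have hxs : (fun i => aeval (fun i => (pol fun l => g (i, l)).eval (t w)) (c.F (rrX r i)) /
        aeval (fun i => (pol fun l => g (i, l)).eval (t w)) (c.F (j0 r))) =
        fun i => aeval (yv cW (t w)) (ptX U V Cc (rrX r i)) /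
          aeval (yv cW (t w)) (ptX U V Cc (j0 r)) := by
      funext i
      exact uxs _
    have h1 := stmFla k (Co (r + 2)) (Pool.Agent.Y198.MC.Ch r) (XX k (r + 2)) (j0 r) (rrX r)
      (vvX k r) hchX W n Y hY.1 hY.2 f hfX hfin c.m c.F c.hF c.mP c.P c.hP c.hrep c.i0
      (fun i => (pol fun l => g (i, l)).eval (t w)) uA uP ui0 uF0
      (by rw [hxs]; exact hind W _ uind)
    rw [hxs] at h1
    exact h1
  obtain ⟨vA, vP, vi0, vF0, vxs, vprop, vind⟩ := hpts 1
  have hcoeff : ∀ i l, IsAlgebraic L ((pol fun l => g (i, l)).coeff l) := by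
    intro i l
    by_cases hl : l ≤ e₁
    · have := Pool.Agent.Y166.GM.pol_coeff (fun l => g (i, l)) (⟨l, by omega⟩ : Fin (e₁ + 1))
      rw [this]
      exact hgL _
    · rw [Polynomial.coeff_eq_zero_of_natDegree_lt (by
        have := Pool.Agent.Y166.GM.pol_natDegree (fun l => g (i, l))
        omega)]
      exact isAlgebraic_zero
  have hq0 : (pol fun l => g (c.i0, l)) ≠ 0 := by
    intro h
    apply vi0
    rw [h, Polynomial.eval_zero]
  refine ⟨W, inferInstance, inferInstance, yv cW (t 1),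
    fun i => (pol fun l => g (i, l)).eval (t 1), c.m, c.F, c.mP, c.P, c.i0, vind, c.hF, c.hP,
    c.hrep, vA, (hFLA 1).2, vP, vi0, vF0, vprop, fun i => vxs _, (hFLA 1).1, ?_⟩
  intro i
  refine hcoreW (pol fun l => g (i, l)) (pol fun l => g (c.i0, l))
    (fun l => hcoeff i l) (fun l => hcoeff c.i0 l) hq0 ?_
  intro s
  -- algebraic over the field of the point of the curve
  have h1 := (hFLA s).1 i
  have hle : IntermediateField.adjoin k
      (Set.range (fun i => aeval (yv cW (t s)) (ptX U V Cc (rrX r i)) /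
        aeval (yv cW (t s)) (ptX U V Cc (j0 r)))) ≤
      IntermediateField.adjoin k (Set.range (yv cW (t s))) := by
    rw [IntermediateField.adjoin_le_iff]
    rintro _ ⟨i, rfl⟩
    have hmem : ∀ P : MvPolynomial M k, aeval (yv cW (t s)) P ∈
        IntermediateField.adjoin k (Set.range (yv cW (t s))) := by
      intro P
      induction P using MvPolynomial.induction_on with
      | C r => rw [aeval_C]; exact IntermediateField.algebraMap_mem _ r
      | add p q hp hq => rw [map_add]; exact add_mem hp hq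
      | mul_X p i hp =>
        rw [map_mul, aeval_X]
        exact mul_mem hp (IntermediateField.subset_adjoin k _ ⟨i, rfl⟩)
    exact div_mem (hmem _) (hmem _)
  obtain ⟨q, hq, hq0⟩ := h1
  refine ⟨q.map (IntermediateField.inclusion hle).toRingHom, ?_, ?_⟩
  · rw [Ne, Polynomial.map_eq_zero_iff (IntermediateField.inclusion hle).injective]
    exact hq
  · rw [Polynomial.aeval_def, Polynomial.eval₂_map]
    rw [Polynomial.aeval_def] at hq0
    exact hq0

end Pool.Agent.Y166.MC
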