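import Pool.Agent.Y198.MC.Stm

/-! The statement on generic points used in the lifting arguments. -/

set_option autoImplicit false
set_option linter.unusedSectionVars false

namespace Pool.Agent.Y166.MC

open MvPolynomial Pool.Agent.Y166.GM Pool.Agent.Y166.SM Pool.Agent.Y198.MC

/-- C5': a family of curves on a generically finite variety over `X` which dominates the family of
curves `T` on `X` with the parameters `c`; the conclusion includes the algebraicity over the field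
of `X`. -/
def StmGenR : Prop :=
  ∀ (k : Type) [Field k] [IsAlgClosed k] [CharZero k] (r e d : ℕ) (M : Type) [Fintype M]
    (num : M → ℕ), 1 ≤ r → (∀ j, 2 ≤ num j) →
    ∀ (U V : Fin (r + 2) → MvPolynomial M k) (Cc : Fin 4 → MvPolynomial M k)
      (T : Set (PP k ((Sg (r + 2) × Fin (e + 1)) × (Ta (r + 2) × Fin (d + 1))))),
    -- the degrees
    (∀ c : Ix num → k, ∀ s, (wdg (fun i => aeval (yP c) (U i)) (fun i => aeval (yP c) (V i))
      s).natDegree ≤ e) →
    (∀ c : Ix num → k, ∀ t, (cub (fun i => aeval (yP c) (U i)) (fun i => aeval (yP c) (V i))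
      (fun i => aeval (yP c) (Cc i)) t).natDegree ≤ d) →
    T ⊆ MorBi (XX k (r + 2)) e d →
    T ⊆ closure {γ | γ ∈ T ∧ ∃ c : Ix num → k, Rep γ (cvF e d U V Cc c)} →
    (∃ P₀ : MvPolynomial (Ix num) k, P₀ ≠ 0 ∧ ∀ c : Ix num → k, eval c P₀ ≠ 0 →
      ∃ γ ∈ T, Rep γ (cvF e d U V Cc c)) →
    -- the chart coordinates are independent at the generic point
    ptX U V Cc (j0 r) ≠ 0 →
    (∀ (W : Type) [Field W] [Algebra k W] (y : M → W), AlgebraicIndependent k y →
      AlgebraicIndependent k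
        (fun i => aeval y (ptX U V Cc (rrX r i)) / aeval y (ptX U V Cc (j0 r)))) →
    -- the variety
    ∀ (n : ℕ) (Y : Set (PP k (Fin (n + 1)))), IsProjVar Y →
    ∀ (f : PP k (Fin (n + 1)) → PP k (Co (r + 2))), IsMorphism Y f →
    Set.MapsTo f Y (XX k (r + 2)) → GenFinite Y f →
    ∀ (e₁ : ℕ) (Ns : Set (PP k (Fin (n + 1) × Fin (e₁ + 1)))), Ns ⊆ Mor Y e₁ →
    (∀ (m : ℕ) (P : MvPolynomial ((Sg (r + 2) × Fin (e + 1)) × (Ta (r + 2) × Fin (d + 1))) k),
      P.IsHomogeneous m → (∀ γ ∈ T, (∃ g ∈ Ns, IsCompBi f g γ) → eval γ.rep P = 0) →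
      ∀ γ ∈ T, eval γ.rep P = 0) →
    -- a generic point of the variety
    ∃ (W : Type) (_ : Field W) (_ : Algebra k W) (y : M → W) (z : Fin (n + 1) → W)
      (m : ℕ) (F : Co (r + 2) → MvPolynomial (Fin (n + 1)) k) (mP : ℕ)
      (P : MvPolynomial (Fin (n + 1)) k) (i₀ : Fin (n + 1)),
      AlgebraicIndependent k y ∧ (∀ j, (F j).IsHomogeneous m) ∧ P.IsHomogeneous mP ∧
      (∀ z ∈ Y, eval z.rep P ≠ 0 → Rep (f z) (fun j => eval z.rep (F j))) ∧
      (∀ Q ∈ coneIdeal Y, aeval z Q = 0) ∧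
      (∀ (l : ℕ) (Q : MvPolynomial (Fin (n + 1)) k), Q.IsHomogeneous l → aeval z Q = 0 →
        Q ∈ coneIdeal Y) ∧
      aeval z P ≠ 0 ∧ z i₀ ≠ 0 ∧ aeval z (F (j0 r)) ≠ 0 ∧
      (∀ a b, aeval z (F a) * aeval y (ptX U V Cc b) = aeval z (F b) * aeval y (ptX U V Cc a)) ∧
      (∀ i, aeval z (F (rrX r i)) / aeval z (F (j0 r)) =
        aeval y (ptX U V Cc (rrX r i)) / aeval y (ptX U V Cc (j0 r))) ∧
      (∀ i, IsAlgebraic (IntermediateField.adjoin k (Set.range
        (fun i => aeval y (ptX U V Cc (rrX r i)) / aeval y (ptX U V Cc (j0 r))))) (z i / z i₀)) ∧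
      ∀ i, z i / z i₀ ∈ IntermediateField.adjoin k (Set.range y)

end Pool.Agent.Y166.MC
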