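import Pool.Agent.Y198.MC.Stm
import Pool.Agent.Y166.SM.GenA

/-! A generic point of a generically finite variety over a variety with a chart. -/

set_option autoImplicit false
set_option linter.unusedSectionVars false

namespace Pool.Agent.Y166.MC

open MvPolynomial Pool.Agent.Y166.GM

theorem stmFla : Pool.Agent.Y198.MC.StmFla := by
  intro k τ ι _ _ _ _ _ Z j₀ rr vv hch W _ _ n Y hYc hYi f hfZ hfin m F hF mP P hP hrep i₀ y hy
    hP0 hi0 hF0 hind
  exact Pool.Agent.Y166.SM.FLa (⟨j₀, rr, vv, hch.eq⟩ : Pool.Agent.Y166.SM.Chart Z ι) hYc hYi hfZ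
    hfin F hF P hP hrep i₀ y hy hP0 hi0 hF0 hind

end Pool.Agent.Y166.MC
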