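import Pool.Agent.Y166.MC.Stm
import Pool.Agent.Y166.MC.Fla
import Pool.Agent.Y166.GM.Main
import Pool.Agent.Y166.SM.GenC
import Pool.Agent.Y166.SM.Fam

/-! Families of curves on the bundle: substitutions and coefficients. -/

set_option autoImplicit false
set_option linter.unusedSectionVars false
set_option linter.deprecated false

namespace Pool.Agent.Y166.MC

open MvPolynomial
open Pool.Agent.Y198.MC (Sg Ta Co wdg cub ptX XX IsCompBi Ix yP yv cv cvF)
open Pool.Agent.Y166.GM (PP Rep pol forms)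
open Pool.Agent.Y166.SM (biforms MorBi)

section
variable {k A B M : Type} [Field k] [CommRing A] [CommRing B] [Algebra k A] [Algebra k B]
  {num : M → ℕ}

theorem yP_map (f : A →+* B) (c : Ix num → A) (j : M) :
    (yP c j).map f = yP (fun i => f (c i)) j := by
  unfold yP
  rw [Polynomial.map_sum]
  refine Finset.sum_congr rfl fun p _ => ?_
  rw [Polynomial.map_mul, Polynomial.map_C, Polynomial.map_pow, Polynomial.map_X]

theorem yP_eval (c : Ix num → A) (t : A) (j : M) : (yP c j).eval t = yv c t j := by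
  unfold yP yv
  rw [Polynomial.eval_finset_sum]
  refine Finset.sum_congr rfl fun p _ => ?_
  rw [Polynomial.eval_mul, Polynomial.eval_C, Polynomial.eval_pow, Polynomial.eval_X]

theorem sub_map (f : A →ₐ[k] B) (c : Ix num → A) (P : MvPolynomial M k) :
    (aeval (yP c) P : Polynomial A).map (f : A →+* B) = aeval (yP fun i => f (c i)) P := by
  have h : (Polynomial.mapAlgHom f).comp (aeval (yP c) : MvPolynomial M k →ₐ[k] Polynomial A) =
      aeval (yP fun i => f (c i)) := by
    apply MvPolynomial.algHom_ext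
    intro j
    rw [AlgHom.comp_apply, aeval_X, aeval_X]
    exact yP_map (f : A →+* B) c j
  exact congrArg (fun φ : MvPolynomial M k →ₐ[k] Polynomial B => φ P) h

theorem sub_eval (c : Ix num → A) (t : A) (P : MvPolynomial M k) :
    (aeval (yP c) P : Polynomial A).eval t = aeval (yv c t) P := by
  have h : ((Polynomial.aeval t : Polynomial A →ₐ[A] A).restrictScalars k).comp
      (aeval (yP c) : MvPolynomial M k →ₐ[k] Polynomial A) = aeval (yv c t) := by
    apply MvPolynomial.algHom_ext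
    intro j
    rw [AlgHom.comp_apply, aeval_X, aeval_X]
    show Polynomial.aeval t (yP c j) = _
    rw [Polynomial.coe_aeval_eq_eval, yP_eval]
  have h2 := congrArg (fun φ : MvPolynomial M k →ₐ[k] A => φ P) h
  refine Eq.trans ?_ h2
  show _ = Polynomial.aeval t (aeval (yP c) P)
  rw [Polynomial.coe_aeval_eq_eval]

theorem wdg_hom {R S : Type} [CommRing R] [CommRing S] {N : ℕ} (f : R →+* S) (u v : Fin N → R)
    (s : Sg N) : f (wdg u v s) = wdg (fun i => f (u i)) (fun i => f (v i)) s := by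
  unfold wdg
  rw [map_sub, map_mul, map_mul]

theorem cub_hom {R S : Type} [CommRing R] [CommRing S] {N : ℕ} (f : R →+* S) (u v : Fin N → R)
    (c : Fin 4 → R) (s : Ta N) :
    f (cub u v c s) = cub (fun i => f (u i)) (fun i => f (v i)) (fun i => f (c i)) s := by
  unfold cub
  simp only [map_add, map_mul]

theorem cvF_eq {N e d : ℕ} (U V : Fin N → MvPolynomial M k) (Cc : Fin 4 → MvPolynomial M k)
    (c : Ix num → A) (x : (Sg N × Fin (e + 1)) × (Ta N × Fin (d + 1))) :
    cvF e d U V Cc c x = (aeval (yP c) (wdg U V x.1.1) : Polynomial A).coeff x.1.2 *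
      (aeval (yP c) (cub U V Cc x.2.1) : Polynomial A).coeff x.2.2 := by
  have h1 := wdg_hom (aeval (yP c) : MvPolynomial M k →ₐ[k] Polynomial A).toRingHom U V x.1.1
  have h2 := cub_hom (aeval (yP c) : MvPolynomial M k →ₐ[k] Polynomial A).toRingHom U V Cc x.2.1
  have h1' : aeval (yP c) (wdg U V x.1.1) =
    wdg (fun i => aeval (yP c) (U i)) (fun i => aeval (yP c) (V i)) x.1.1 := h1
  have h2' : aeval (yP c) (cub U V Cc x.2.1) =
    cub (fun i => aeval (yP c) (U i)) (fun i => aeval (yP c) (V i))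
      (fun i => aeval (yP c) (Cc i)) x.2.1 := h2
  rw [h1', h2']
  rfl

theorem cvF_map {N e d : ℕ} (U V : Fin N → MvPolynomial M k) (Cc : Fin 4 → MvPolynomial M k)
    (f : A →ₐ[k] B) (c : Ix num → A) (x : (Sg N × Fin (e + 1)) × (Ta N × Fin (d + 1))) :
    f (cvF e d U V Cc c x) = cvF e d U V Cc (fun i => f (c i)) x := by
  rw [cvF_eq, cvF_eq, map_mul, ← sub_map f, ← sub_map f, Polynomial.coeff_map,
    Polynomial.coeff_map]
  rfl

/-- The pullback of polynomials to the space of the parameters. -/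
noncomputable def pullF {N : ℕ} (e d : ℕ) (num : M → ℕ) (U V : Fin N → MvPolynomial M k)
    (Cc : Fin 4 → MvPolynomial M k)
    (Q : MvPolynomial ((Sg N × Fin (e + 1)) × (Ta N × Fin (d + 1))) k) :
    MvPolynomial (Ix num) k :=
  aeval (cvF e d U V Cc (X : Ix num → MvPolynomial (Ix num) k)) Q

theorem aeval_pullF {N e d : ℕ} (U V : Fin N → MvPolynomial M k) (Cc : Fin 4 → MvPolynomial M k)
    (c : Ix num → A) (Q : MvPolynomial ((Sg N × Fin (e + 1)) × (Ta N × Fin (d + 1))) k) :
    aeval c (pullF e d num U V Cc Q) = aeval (cvF e d U V Cc c) Q := by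
  have h : (aeval c : MvPolynomial (Ix num) k →ₐ[k] A).comp
      (aeval (cvF e d U V Cc (X : Ix num → MvPolynomial (Ix num) k))) =
      aeval (cvF e d U V Cc c) := by
    apply MvPolynomial.algHom_ext
    intro x
    rw [AlgHom.comp_apply, aeval_X, aeval_X, cvF_map]
    congr 1
    funext i
    exact aeval_X _ _
  exact congrArg (fun φ : _ →ₐ[k] A => φ Q) h

theorem eval_pullF {N e d : ℕ} (U V : Fin N → MvPolynomial M k) (Cc : Fin 4 → MvPolynomial M k)
    (c : Ix num → k) (Q : MvPolynomial ((Sg N × Fin (e + 1)) × (Ta N × Fin (d + 1))) k) :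
    eval c (pullF e d num U V Cc Q) = eval (cvF e d U V Cc c) Q := by
  rw [← MvPolynomial.aeval_eq_eval, ← MvPolynomial.aeval_eq_eval]
  exact aeval_pullF U V Cc c Q

/-- The degree bounds hold over all rings. -/
theorem deg_gen [Infinite k] (P : MvPolynomial M k) (e : ℕ)
    (h : ∀ c : Ix num → k, (aeval (yP c) P : Polynomial k).natDegree ≤ e) (c : Ix num → A) :
    (aeval (yP c) P : Polynomial A).natDegree ≤ e := by
  have h1 : (aeval (yP (X : Ix num → MvPolynomial (Ix num) k)) P :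
      Polynomial (MvPolynomial (Ix num) k)).natDegree ≤ e := by
    rw [Polynomial.natDegree_le_iff_coeff_eq_zero]
    intro i hi
    apply MvPolynomial.funext
    intro c
    rw [map_zero]
    have h2 := sub_map (aeval c : MvPolynomial (Ix num) k →ₐ[k] k)
      (X : Ix num → MvPolynomial (Ix num) k) P
    have h3 : (fun i : Ix num => (aeval c : MvPolynomial (Ix num) k →ₐ[k] k) (X i)) = c := by
      funext i
      exact aeval_X _ _
    rw [h3] at h2
    have h4 : (aeval (yP c) P : Polynomial k).coeff i = 0 :=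
      Polynomial.coeff_eq_zero_of_natDegree_lt (lt_of_le_of_lt (h c) hi)
    rw [← h2, Polynomial.coeff_map] at h4
    rw [← MvPolynomial.aeval_eq_eval]
    exact h4
  have h2 := sub_map (aeval c : MvPolynomial (Ix num) k →ₐ[k] A)
    (X : Ix num → MvPolynomial (Ix num) k) P
  have h3 : (fun i : Ix num => (aeval c : MvPolynomial (Ix num) k →ₐ[k] A) (X i)) = c := by
    funext i
    exact aeval_X _ _
  rw [h3] at h2
  rw [← h2]
  exact Polynomial.natDegree_map_le.trans h1

end

section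
variable {A B σ τ : Type} [CommRing A] [CommRing B] {e d : ℕ}

/-- The polynomial curve with the given bihomogeneous coefficients. -/
noncomputable def bl (γ : (σ × Fin (e + 1)) × (τ × Fin (d + 1)) → A) (j : σ × τ) : Polynomial A :=
  ∑ p : Fin (e + 1), ∑ q : Fin (d + 1), Polynomial.C (γ ((j.1, p), (j.2, q))) *
    (Polynomial.X ^ (p : ℕ) * Polynomial.X ^ (q : ℕ))

theorem bl_map (f : A →+* B) (γ : (σ × Fin (e + 1)) × (τ × Fin (d + 1)) → A) (j : σ × τ) :
    (bl γ j).map f = bl (fun x => f (γ x)) j := by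
  unfold bl
  simp only [Polynomial.map_sum, Polynomial.map_mul, Polynomial.map_C, Polynomial.map_pow,
    Polynomial.map_X]

theorem bl_smul (a : A) (γ : (σ × Fin (e + 1)) × (τ × Fin (d + 1)) → A) (j : σ × τ) :
    bl (fun x => a * γ x) j = Polynomial.C a * bl γ j := by
  unfold bl
  rw [Finset.mul_sum]
  refine Finset.sum_congr rfl fun p _ => ?_
  rw [Finset.mul_sum]
  refine Finset.sum_congr rfl fun q _ => ?_
  rw [Polynomial.C_mul, mul_assoc]

theorem bl_eval {k : Type} [Field k] (γ : (σ × Fin (e + 1)) × (τ × Fin (d + 1)) → k) (t : k)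
    (j : σ × τ) : (bl γ j).eval t = biforms γ ![t, 1] j := by
  unfold bl biforms
  simp only [Polynomial.eval_finset_sum, Polynomial.eval_mul, Polynomial.eval_C,
    Polynomial.eval_pow, Polynomial.eval_X]
  refine Finset.sum_congr rfl fun p _ => Finset.sum_congr rfl fun q _ => ?_
  simp
  ring

theorem bl_prod (P : σ → Polynomial A) (Q : τ → Polynomial A) (j : σ × τ)
    (hP : (P j.1).natDegree ≤ e) (hQ : (Q j.2).natDegree ≤ d) :
    bl (fun x : (σ × Fin (e + 1)) × (τ × Fin (d + 1)) => (P x.1.1).coeff x.1.2 *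
      (Q x.2.1).coeff x.2.2) j = P j.1 * Q j.2 := by
  unfold bl
  have h1 : ∀ (n : ℕ) (R : Polynomial A), R.natDegree ≤ n →
      R = ∑ p : Fin (n + 1), Polynomial.C (R.coeff p) * Polynomial.X ^ (p : ℕ) := by
    intro n R hR
    rw [Fin.sum_univ_eq_sum_range (fun p => Polynomial.C (R.coeff p) * Polynomial.X ^ p) (n + 1)]
    exact R.as_sum_range_C_mul_X_pow' (Nat.lt_succ_of_le hR)
  conv_rhs => rw [h1 e _ hP, h1 d _ hQ]
  rw [Finset.sum_mul_sum]
  refine Finset.sum_congr rfl fun p _ => Finset.sum_congr rfl fun q _ => ?_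
  rw [Polynomial.C_mul]
  ring

end

section
variable {k W M : Type} [Field k] [Infinite k] [CommRing W] [Algebra k W] {num : M → ℕ}

/-- The point of the generic curve is generic. -/
theorem yv_indep {ι : Type} (hnum : ∀ j, 1 ≤ num j) (c : Ix num → W) (t : ι → W)
    (h : AlgebraicIndependent k (Sum.elim c t)) (s : ι) :
    AlgebraicIndependent k (yv c (t s)) := by
  rw [algebraicIndependent_iff]
  intro P hP
  let R : MvPolynomial (Ix num ⊕ ι) k :=
    aeval (yv (fun i : Ix num => (X (Sum.inl i) : MvPolynomial (Ix num ⊕ ι) k))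
      (X (Sum.inr s))) P
  have hR : ∀ (B : Type) [CommRing B] [Algebra k B] (c' : Ix num → B) (t' : ι → B),
      aeval (Sum.elim c' t') R = aeval (yv c' (t' s)) P := by
    intro B _ _ c' t'
    have h1 : (aeval (Sum.elim c' t') : MvPolynomial (Ix num ⊕ ι) k →ₐ[k] B).comp
        (aeval (yv (fun i : Ix num => (X (Sum.inl i) : MvPolynomial (Ix num ⊕ ι) k))
          (X (Sum.inr s)))) = aeval (yv c' (t' s)) := by
      apply MvPolynomial.algHom_ext
      intro j
      rw [AlgHom.comp_apply, aeval_X, aeval_X]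
      unfold yv
      rw [map_sum]
      refine Finset.sum_congr rfl fun p _ => ?_
      rw [map_mul, map_pow, aeval_X, aeval_X]
      rfl
    exact congrArg (fun ψ : MvPolynomial M k →ₐ[k] B => ψ P) h1
  have hR0 : R = 0 := by
    apply (algebraicIndependent_iff.1 h)
    rw [hR W c t]
    exact hP
  apply MvPolynomial.funext
  intro T
  rw [map_zero]
  have h1 := hR k (fun i : Ix num => if (i.2 : ℕ) = 0 then T i.1 else 0) (fun _ => 0)
  rw [hR0, map_zero] at h1
  have h2 : yv (fun i : Ix num => if (i.2 : ℕ) = 0 then T i.1 else 0) (0 : k) = T := by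
    funext j
    unfold yv
    rw [Finset.sum_eq_single (⟨0, hnum j⟩ : Fin (num j))]
    · simp
    · intro p _ hp
      have : (p : ℕ) ≠ 0 := by
        intro h
        exact hp (Fin.ext h)
      show (if (p : ℕ) = 0 then T j else 0) * (0 : k) ^ (p : ℕ) = 0
      rw [if_neg this, zero_mul]
    · intro h
      exact absurd (Finset.mem_univ _) h
  rw [h2] at h1
  rw [← MvPolynomial.aeval_eq_eval]
  exact h1.symm

end

section
variable {k : Type} [Field k]

/-- A chart of a morphism. -/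
structure ChF {τ : Type} {n : ℕ} (Y : Set (PP k (Fin (n + 1))))
    (f : PP k (Fin (n + 1)) → PP k τ) where
  m : ℕ
  F : τ → MvPolynomial (Fin (n + 1)) k
  hF : ∀ j, (F j).IsHomogeneous m
  mP : ℕ
  P : MvPolynomial (Fin (n + 1)) k
  hP : P.IsHomogeneous mP
  hrep : ∀ z ∈ Y, eval z.rep P ≠ 0 → Rep (f z) (fun j => eval z.rep (F j))
  j : τ
  i0 : Fin (n + 1)

/-- The polynomial of a chart. -/
noncomputable def ChF.G {τ : Type} {n : ℕ} {Y : Set (PP k (Fin (n + 1)))}
    {f : PP k (Fin (n + 1)) → PP k τ} (c : ChF Y f) : MvPolynomial (Fin (n + 1)) k :=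
  c.P * c.F c.j * X c.i0

theorem ChF.G_homog {τ : Type} {n : ℕ} {Y : Set (PP k (Fin (n + 1)))}
    {f : PP k (Fin (n + 1)) → PP k τ} (c : ChF Y f) : c.G.IsHomogeneous (c.mP + c.m + 1) :=
  (c.hP.mul (c.hF c.j)).mul (isHomogeneous_X k c.i0)

theorem exists_chF {τ : Type} {n : ℕ} {Y : Set (PP k (Fin (n + 1)))}
    {f : PP k (Fin (n + 1)) → PP k τ}
    (hf : Pool.Agent.Y166.GM.IsMorphism Y f) {y : PP k (Fin (n + 1))} (hy : y ∈ Y) :
    ∃ c : ChF Y f, eval y.rep c.G ≠ 0 := by
  obtain ⟨U, hU, hyU, m, F, hF, hrep⟩ := hf y hy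
  obtain ⟨mP, P, hP, hPy, hPU⟩ := Pool.Agent.Y166.GM.exists_basic hU hyU
  obtain ⟨j, hj⟩ : ∃ j, eval y.rep (F j) ≠ 0 := by
    by_contra hcon
    push Not at hcon
    exact (hrep y ⟨hyU, hy⟩).ne_zero (funext hcon)
  obtain ⟨i0, hi0⟩ : ∃ i, y.rep i ≠ 0 := by
    by_contra hcon
    push Not at hcon
    exact y.rep_nonzero (funext hcon)
  refine ⟨⟨m, F, hF, mP, P, hP, fun z hz hzP => hrep z ⟨hPU z hzP, hz⟩, j, i0⟩, ?_⟩
  show eval y.rep (P * F j * X i0) ≠ 0
  rw [map_mul, map_mul, eval_X]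
  exact mul_ne_zero (mul_ne_zero hPy hj) hi0

/-- Algebra at a point. -/
theorem at_pointF {τ : Type} {W : Type} [Field W] [Algebra k W] {n : ℕ}
    {Y : Set (PP k (Fin (n + 1)))}
    {f : PP k (Fin (n + 1)) → PP k τ} (c : ChF Y f) (y : Fin (n + 1) → W) (x : τ → W)
    (hG : aeval y c.G ≠ 0)
    (hB : ∀ a b, aeval y c.P * (aeval y (c.F a) * x b - aeval y (c.F b) * x a) = 0)
    (j0 : τ) (hx0 : x j0 ≠ 0) :
    aeval y c.P ≠ 0 ∧ y c.i0 ≠ 0 ∧ aeval y (c.F j0) ≠ 0 ∧
      (∀ i, aeval y (c.F i) / aeval y (c.F j0) = x i / x j0) ∧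
      ∀ a b, aeval y (c.F a) * x b = aeval y (c.F b) * x a := by
  unfold ChF.G at hG
  rw [map_mul, map_mul, aeval_X] at hG
  have h1 : aeval y c.P ≠ 0 := left_ne_zero_of_mul (left_ne_zero_of_mul hG)
  have h2 : aeval y (c.F c.j) ≠ 0 := right_ne_zero_of_mul (left_ne_zero_of_mul hG)
  have h3 : y c.i0 ≠ 0 := right_ne_zero_of_mul hG
  have hB' : ∀ a b, aeval y (c.F a) * x b = aeval y (c.F b) * x a := by
    intro a b
    rcases mul_eq_zero.1 (hB a b) with h | h
    · exact absurd h h1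
    · exact sub_eq_zero.1 h
  have h4 : aeval y (c.F j0) ≠ 0 := by
    intro h
    have h5 := hB' c.j j0
    rw [h, zero_mul] at h5
    exact mul_ne_zero h2 hx0 h5
  refine ⟨h1, h3, h4, fun i => ?_, hB'⟩
  rw [div_eq_div_iff h4 hx0, hB' i j0]
  ring

/-- The value of a polynomial along a pair of curves. -/
noncomputable def alongB {σ ρ τ : Type} {e₁ e d : ℕ} (G : MvPolynomial (σ ⊕ (ρ × τ)) k) :
    Polynomial (MvPolynomial ((σ × Fin (e₁ + 1)) ⊕ ((ρ × Fin (e + 1)) × (τ × Fin (d + 1)))) k) :=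
  aeval (Sum.elim (fun i => pol (fun l => X (Sum.inl (i, l))))
    (fun j => bl (fun x => X (Sum.inr x)) j)) G

theorem alongB_eval {σ ρ τ : Type} {e₁ e d : ℕ} {B : Type} [CommRing B] [Algebra k B]
    (g : σ × Fin (e₁ + 1) → B) (h : (ρ × Fin (e + 1)) × (τ × Fin (d + 1)) → B) (t : B)
    (G : MvPolynomial (σ ⊕ (ρ × τ)) k) :
    ((alongB G).map (aeval (Sum.elim g h) :
      MvPolynomial ((σ × Fin (e₁ + 1)) ⊕ ((ρ × Fin (e + 1)) × (τ × Fin (d + 1)))) k →ₐ[k]
        B).toRingHom).eval t =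
      aeval (Sum.elim (fun i => (pol fun l => g (i, l)).eval t)
        (fun j => (bl h j).eval t)) G := by
  have hh : ((Polynomial.evalRingHom t).comp
      (Polynomial.mapRingHom (aeval (Sum.elim g h) :
        MvPolynomial ((σ × Fin (e₁ + 1)) ⊕ ((ρ × Fin (e + 1)) × (τ × Fin (d + 1)))) k →ₐ[k]
          B).toRingHom)).comp
      (aeval (Sum.elim (fun i => pol (fun l => X (Sum.inl (i, l))))
        (fun j => bl (fun x => X (Sum.inr x)) j)) : MvPolynomial (σ ⊕ (ρ × τ)) k →ₐ[k]
        Polynomial (MvPolynomial ((σ × Fin (e₁ + 1)) ⊕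
          ((ρ × Fin (e + 1)) × (τ × Fin (d + 1)))) k)).toRingHom =
      (aeval (Sum.elim (fun i => (pol fun l => g (i, l)).eval t)
        (fun j => (bl h j).eval t)) : MvPolynomial (σ ⊕ (ρ × τ)) k →ₐ[k] B).toRingHom := by
    apply MvPolynomial.ringHom_ext
    · intro r
      show (((aeval _ : MvPolynomial (σ ⊕ (ρ × τ)) k →ₐ[k]
        Polynomial (MvPolynomial ((σ × Fin (e₁ + 1)) ⊕
          ((ρ × Fin (e + 1)) × (τ × Fin (d + 1)))) k)) (C r)).map _).eval t =
        aeval _ (C r)
      rw [aeval_C, aeval_C, Polynomial.algebraMap_apply, Polynomial.map_C, Polynomial.eval_C]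
      exact aeval_C _ _
    · rintro (i | j)
      · show (((aeval _ : MvPolynomial (σ ⊕ (ρ × τ)) k →ₐ[k]
          Polynomial (MvPolynomial ((σ × Fin (e₁ + 1)) ⊕
            ((ρ × Fin (e + 1)) × (τ × Fin (d + 1)))) k))
            (X (Sum.inl i))).map _).eval t = aeval _ (X (Sum.inl i))
        rw [aeval_X, aeval_X, Sum.elim_inl, Sum.elim_inl, Pool.Agent.Y166.GM.pol_map]
        congr 2
        funext l
        exact aeval_X _ _
      · show (((aeval _ : MvPolynomial (σ ⊕ (ρ × τ)) k →ₐ[k]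
          Polynomial (MvPolynomial ((σ × Fin (e₁ + 1)) ⊕
            ((ρ × Fin (e + 1)) × (τ × Fin (d + 1)))) k))
            (X (Sum.inr j))).map _).eval t = aeval _ (X (Sum.inr j))
        rw [aeval_X, aeval_X, Sum.elim_inr, Sum.elim_inr, bl_map]
        congr 2
        funext l
        exact aeval_X _ _
  exact congrArg (fun ψ : MvPolynomial (σ ⊕ (ρ × τ)) k →+* B => ψ G) hh

end

end Pool.Agent.Y166.MC
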